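import Pool.Agent.R925.X.Abs
import Pool.Agent.R925.Q.Geo

/-! Sections which commute with automorphisms that move `x`: superelliptic curves
`d y^ℓ = g(x^(ℓ^j))`. -/

set_option autoImplicit false
set_option linter.all false

open Polynomial FF

namespace Pool.Agent.R925.X

open Pool.Agent.Y157.PS Pool.Agent.Y31.PS Pool.Agent.R925.Q

theorem expand_zero {k κ : Type} [Field k] [Field κ] [Algebra k κ] {m : ℕ} (hm : 2 ≤ m) (g : k[X])
    (hs : (expand k m g).Separable) : aeval (0 : κ) (expand k m g) ≠ 0 := by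
  intro h
  have h1 : (expand k m g).eval 0 = 0 := by
    have h2 : aeval (algebraMap k κ 0) (expand k m g) = 0 := by rw [map_zero]; exact h
    rw [aeval_algebraMap_apply] at h2
    have h3 := (_root_.map_eq_zero _).1 h2
    rwa [coe_aeval_eq_eval] at h3
  have h4 : (derivative (expand k m g)).eval 0 = 0 := by
    rw [derivative_expand, eval_mul, eval_mul, eval_pow, eval_X, zero_pow (by omega), mul_zero,
      mul_zero]
  obtain ⟨a, b, hab⟩ := hs
  have h5 := congrArg (eval (0 : k)) hab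
  rw [eval_add, eval_mul, eval_mul, h1, h4, mul_zero, mul_zero, add_zero, eval_one] at h5
  exact zero_ne_one h5

section main

variable {k F Ω : Type} [Field k] [CharZero k] [Field F] [Field Ω] [Algebra k F] [Algebra F Ω] [Algebra k Ω] [IsScalarTower k F Ω]
    [IsAlgClosed Ω] [Algebra.IsAlgebraic F Ω]

theorem geoX {ℓ : ℕ} [Fact ℓ.Prime] {j : ℕ} (hj : 1 ≤ j) (g : k[X])
    (hs : (expand k (ℓ ^ j) g).Separable) (h3 : 3 ≤ (expand k (ℓ ^ j) g).natDegree)
    (hRR : RR ℓ k (algebraicClosure k Ω) (expand k (ℓ ^ j) g)) (d : k) (hd : d ≠ 0)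
    (x y : F) (hx : Transcendental k x)
    (hxy : algebraMap k F d * y ^ ℓ = aeval x (expand k (ℓ ^ j) g))
    (hF : IntermediateField.adjoin k {x, y} = (⊤ : IntermediateField k F))
    (S : (algebraicClosure k Ω ≃ₐ[k] algebraicClosure k Ω) →*
      (geomPro ℓ k F Ω ≃ₐ[F] geomPro ℓ k F Ω))
    (hcompat : ∀ σ (c : algebraicClosure k Ω) (z : geomPro ℓ k F Ω), (z : Ω) = (c : Ω) →
      (S σ z : Ω) = (σ c : Ω)) :
    (∀ (U : Subgroup (algebraicClosure k Ω ≃ₐ[k] algebraicClosure k Ω)), U.index ≠ 0 →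
      ∀ γ : geomPro ℓ k F Ω ≃+* geomPro ℓ k F Ω,
      γ (algebraMap F _ x) ≠ algebraMap F _ x →
      Co2 (cst ℓ k F Ω) (ℓ ^ j) x S U γ →
      ∃ W : ValuationSubring (geomPro ℓ k F Ω),
        (∀ c, cst ℓ k F Ω c ∈ W) ∧
        (∀ z ∈ W, ∃ c : algebraicClosure k Ω, z - cst ℓ k F Ω c ∈ W.nonunits) ∧
        (algebraMap F (geomPro ℓ k F Ω) x ∈ W.nonunits ∨
          (algebraMap F (geomPro ℓ k F Ω) x)⁻¹ ∈ W.nonunits) ∧
        (∀ σ z, S σ z ∈ W ↔ z ∈ W) ∧
        ∀ W' : ValuationSubring (geomPro ℓ k F Ω), (∀ c, cst ℓ k F Ω c ∈ W') → W' ≠ ⊤ →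
          ∀ (U' : Subgroup (algebraicClosure k Ω ≃ₐ[k] algebraicClosure k Ω))
            (γ' : geomPro ℓ k F Ω ≃+* geomPro ℓ k F Ω), U'.index ≠ 0 → γ' ≠ RingEquiv.refl _ →
          Co2 (cst ℓ k F Ω) (ℓ ^ j) x S U' γ' →
          (∀ z, γ' z ∈ W' ↔ z ∈ W') → W' = W) ∧
    (∀ (U U' U'' : Subgroup (algebraicClosure k Ω ≃ₐ[k] algebraicClosure k Ω)), U.index ≠ 0 →
      U'.index ≠ 0 → U''.index ≠ 0 →
      ∀ γ γ' γ'' : geomPro ℓ k F Ω ≃+* geomPro ℓ k F Ω,
      γ'' (algebraMap F _ x) ≠ algebraMap F _ x →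
      Co2 (cst ℓ k F Ω) (ℓ ^ j) x S U γ → Co2 (cst ℓ k F Ω) (ℓ ^ j) x S U' γ' →
      Co2 (cst ℓ k F Ω) (ℓ ^ j) x S U'' γ'' →
      γ (algebraMap F _ x) = γ' (algebraMap F _ x) → γ = γ') ∧
    (∀ (U : Subgroup (algebraicClosure k Ω ≃ₐ[k] algebraicClosure k Ω)), U.index ≠ 0 →
      ∀ W : ValuationSubring (geomPro ℓ k F Ω), (∀ c, cst ℓ k F Ω c ∈ W) →
      (algebraMap F (geomPro ℓ k F Ω) x ∈ W.nonunits ∨
        (algebraMap F (geomPro ℓ k F Ω) x)⁻¹ ∈ W.nonunits) →
      (∀ σ ∈ U, ∀ z, S σ z ∈ W ↔ z ∈ W) → ∀ ζ : algebraicClosure k Ω, ζ ^ (ℓ ^ j) = 1 →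
      ∃ γ : geomPro ℓ k F Ω ≃+* geomPro ℓ k F Ω,
        γ (algebraMap F _ x) = cst ℓ k F Ω ζ * algebraMap F _ x ∧
        (∀ z, γ z ∈ W ↔ z ∈ W) ∧
        ∃ U' : Subgroup (algebraicClosure k Ω ≃ₐ[k] algebraicClosure k Ω), U'.index ≠ 0 ∧
          Co2 (cst ℓ k F Ω) (ℓ ^ j) x S U' γ) := by
  have hdvd : ℓ ∣ (expand k (ℓ ^ j) g).natDegree := by
    rw [natDegree_expand]
    exact Dvd.dvd.mul_left (dvd_pow_self ℓ (by omega)) _
  have hm2 : 2 ≤ ℓ ^ j := by
    calc 2 ≤ ℓ := (Fact.out : ℓ.Prime).two_le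
      _ = ℓ ^ 1 := (pow_one ℓ).symm
      _ ≤ ℓ ^ j := Nat.pow_le_pow_right (Fact.out : ℓ.Prime).pos hj
  have hzero := expand_zero (κ := algebraicClosure k Ω) hm2 g hs
  have hrot : ∀ ζ e : algebraicClosure k Ω, ζ ^ (ℓ ^ j) = 1 →
      aeval e (expand k (ℓ ^ j) g) = 0 → aeval (ζ * e) (expand k (ℓ ^ j) g) = 0 := by
    intro ζ e hζ he
    rw [expand_aeval] at he ⊢
    rw [mul_pow, hζ, one_mul, he]
  obtain ⟨f, hf⟩ : ∃ f : k[X], f = expand k (ℓ ^ j) g := ⟨_, rfl⟩
  rw [← hf] at hs h3 hRR hxy hdvd hzero hrot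
  classical
  have hℓp : ℓ.Prime := Fact.out
  have hac : IsAlgClosure k (algebraicClosure k Ω) := inferInstance
  have hkb : IsAlgClosed (algebraicClosure k Ω) := hac.1
  have hch : CharZero (algebraicClosure k Ω) :=
    charZero_of_injective_algebraMap (algebraMap k (algebraicClosure k Ω)).injective
  have hf0 : f ≠ 0 := by rintro rfl; simp at h3
  have hlck0 : f.leadingCoeff ≠ 0 := leadingCoeff_ne_zero.2 hf0
  -- the element `δ`
  obtain ⟨δ, hδ⟩ : ∃ δ : algebraicClosure k Ω, δ ^ ℓ =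
      algebraMap k (algebraicClosure k Ω) (d / f.leadingCoeff) :=
    IsAlgClosed.exists_pow_nat_eq _ hℓp.pos
  have hδ0 : δ ≠ 0 := by
    rintro rfl
    rw [zero_pow hℓp.ne_zero] at hδ
    exact (_root_.map_ne_zero _).2 (div_ne_zero hd hlck0) hδ.symm
  -- the roots
  set P := f.map (algebraMap k (algebraicClosure k Ω)) with hP
  have hnd : P.roots.Nodup := nodup_roots hs.map
  have hlc0 : algebraMap k (algebraicClosure k Ω) f.leadingCoeff ≠ 0 :=
    (_root_.map_ne_zero _).2 hlck0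
  have hP0 : P ≠ 0 := (Polynomial.map_ne_zero_iff (algebraMap k _).injective).2 hf0
  have hPdeg : P.natDegree = f.natDegree := natDegree_map_eq_of_injective (algebraMap k _).injective f
  set B : Finset (algebraicClosure k Ω) := P.roots.toFinset with hBdef
  have hmemB : ∀ θ, θ ∈ B ↔ aeval θ f = 0 := by
    intro θ
    rw [hBdef, Multiset.mem_toFinset, mem_roots hP0, IsRoot.def, hP, eval_map]
    rfl
  have hcard : B.card = f.natDegree := by
    rw [hBdef, Multiset.toFinset_card_of_nodup hnd, ← hPdeg]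
    exact (IsAlgClosed.splits P).natDegree_eq_card_roots.symm
  -- the product formula
  have hPx : ∀ z : Ω, P.eval₂ (algebraMap (algebraicClosure k Ω) Ω) z =
      algebraMap (algebraicClosure k Ω) Ω (algebraMap k (algebraicClosure k Ω) f.leadingCoeff) *
        ∏ e ∈ B, (z - algebraMap (algebraicClosure k Ω) Ω e) := by
    intro z
    have h1 := (IsAlgClosed.splits P).eq_prod_roots
    have h5 : P.leadingCoeff = algebraMap k (algebraicClosure k Ω) f.leadingCoeff :=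
      leadingCoeff_map_of_leadingCoeff_ne_zero _ hlc0
    rw [h5] at h1
    have h6 : ∏ e ∈ B, (z - algebraMap (algebraicClosure k Ω) Ω e) =
        (P.roots.map fun e => z - algebraMap (algebraicClosure k Ω) Ω e).prod := by
      rw [hBdef, Finset.prod, Multiset.toFinset_val, Multiset.dedup_eq_self.2 hnd]
    rw [h6]
    conv_lhs => rw [h1]
    rw [eval₂_mul, eval₂_C, ← coe_eval₂RingHom, map_multiset_prod, Multiset.map_map]
    congr 2
    refine Multiset.map_congr rfl fun a _ => ?_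
    simp
  have hfx : algebraMap F Ω (aeval x f) =
      P.eval₂ (algebraMap (algebraicClosure k Ω) Ω) (algebraMap F Ω x) := by
    rw [aeval_def, hom_eval₂, hP, eval₂_map, ← IsScalarTower.algebraMap_eq k F Ω,
      ← IsScalarTower.algebraMap_eq k (algebraicClosure k Ω) Ω]
  set Y0 : Ω := (δ : Ω) * algebraMap F Ω y with hY0
  have hY : Y0 ^ ℓ = ∏ e ∈ B, (algebraMap F Ω x - algebraMap (algebraicClosure k Ω) Ω e) := by
    have h1 := congrArg (algebraMap F Ω) hxy
    rw [map_mul, map_pow, ← IsScalarTower.algebraMap_apply, hfx, hPx] at h1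
    have h5 : algebraMap (algebraicClosure k Ω) Ω
        (algebraMap k (algebraicClosure k Ω) f.leadingCoeff) ≠ 0 := (_root_.map_ne_zero _).2 hlc0
    have h6 : (δ : Ω) ^ ℓ = algebraMap k Ω d / algebraMap (algebraicClosure k Ω) Ω
        (algebraMap k (algebraicClosure k Ω) f.leadingCoeff) := by
      have h7 := congrArg (algebraMap (algebraicClosure k Ω) Ω) hδ
      rw [map_pow, map_div₀, map_div₀, ← IsScalarTower.algebraMap_apply] at h7
      exact h7
    rw [hY0, mul_pow, h6, div_mul_eq_mul_div, h1, mul_div_cancel_left₀ _ h5]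
  -- the covering field
  have hX0 : Transcendental k (algebraMap F Ω x) :=
    (transcendental_algebraMap_iff (R := k) (algebraMap F Ω).injective (a := x)).2 hx
  have hrat := ratF_adj (trans_up hX0)
  have hYR : Y0 ^ ℓ ∈ IntermediateField.adjoin (algebraicClosure k Ω) {algebraMap F Ω x} := by
    rw [hY]
    exact prod_mem fun e _ => sub_mem (IntermediateField.mem_adjoin_simple_self _ _)
      (IntermediateField.algebraMap_mem _ e)
  have hclR := closure_R hF δ hδ0 hℓp.pos hYR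
  let R := IntermediateField.adjoin (algebraicClosure k Ω) {algebraMap F Ω x}
  let x' : R := ⟨algebraMap F Ω x, IntermediateField.mem_adjoin_simple_self _ _⟩
  obtain ⟨M, hM⟩ : ∃ M : IntermediateField R Ω,
      ∀ z, z ∈ M ↔ z ∈ maxPro ℓ (algebraicClosure k Ω) (IntermediateField.adjoin R {Y0}) Ω :=
    ⟨(maxPro ℓ (algebraicClosure k Ω) (IntermediateField.adjoin R {Y0}) Ω).restrictScalars R,
      fun z => Iff.rfl⟩
  have hYM : Y0 ∈ M := by
    rw [hM]
    exact (maxPro ℓ (algebraicClosure k Ω) (IntermediateField.adjoin R {Y0}) Ω).algebraMap_mem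
      ⟨Y0, IntermediateField.mem_adjoin_simple_self _ _⟩
  have hCov : Cov ℓ (algebraicClosure k Ω) R M x' B ⟨Y0, hYM⟩ :=
    a_cov ℓ (algebraicClosure k Ω) R Ω x' hrat B (by rw [hcard]; exact hdvd)
      (by rw [hcard]; exact h3) Y0 hY M hM ⟨Y0, hYM⟩ rfl
  have hMN : ∀ z, z ∈ M ↔ z ∈ geomPro ℓ k F Ω := fun z =>
    (hM z).trans (maxPro_geom ℓ k hF δ hδ0 z)
  let eqv : M ≃+* geomPro ℓ k F Ω :=
    { toFun := fun w => ⟨w.1, (hMN _).1 w.2⟩
      invFun := fun w => ⟨w.1, (hMN _).2 w.2⟩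
      left_inv := fun w => rfl
      right_inv := fun w => rfl
      map_mul' := fun w w' => rfl
      map_add' := fun w w' => rfl }
  have hcst : cst ℓ k F Ω = fun c => eqv (algebraMap (algebraicClosure k Ω) M c) := rfl
  obtain ⟨hRig, hRot⟩ := hRR R M x' B ⟨Y0, hYM⟩ hmemB hCov
  have hB' : ∀ ζ : algebraicClosure k Ω, ζ ^ (ℓ ^ j) = 1 → ∀ e ∈ B, ζ * e ∈ B := by
    intro ζ hζ e he
    rw [hmemB] at he ⊢
    exact hrot ζ e hζ he
  have hB0 : (0 : algebraicClosure k Ω) ∉ B := fun h => hzero ((hmemB 0).1 h)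
  exact absX (R := R) x' B ⟨Y0, hYM⟩ hB0 hB' hCov hRig hRot eqv x
    (Subtype.ext rfl) S (fun σ c => Subtype.ext (hcompat σ c _ rfl))

end main

end Pool.Agent.R925.X
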