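import Pool.Agent.R925.X.Cus

/-! Sections which commute with automorphisms that move `x`: transfer to Galois groups of function
fields. -/

set_option autoImplicit false
set_option linter.all false

open Polynomial FF

namespace Pool.Agent.R925.X

open Pool.Agent.Y157.PS Pool.Agent.Y31.PS Pool.Agent.R925.Q

/-- `γ` fixes the constants and `x ^ m`, and commutes with `S σ` for `σ ∈ U` -/
structure Co2 {κ' G F N : Type} [Group G] [Field F] [Field N] [Algebra F N] (cst : κ' → N) (m : ℕ)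
    (x : F) (S : G →* (N ≃ₐ[F] N)) (U : Subgroup G) (γ : N ≃+* N) : Prop where
  con : ∀ c, γ (cst c) = cst c
  fix : γ (algebraMap F N x) ^ m = algebraMap F N x ^ m
  com : ∀ σ ∈ U, ∀ z, γ (S σ z) = S σ (γ z)

section absM

variable {k κ R F M N : Type} [Field k] [CharZero k]
    [Field κ] [Algebra k κ] [IsAlgClosure k κ]
    [Field R] [Field F] [Field M] [Field N] [Algebra κ R] [Algebra R M] [Algebra κ M]
    [IsScalarTower κ R M] [Algebra F N]

/-- the abstract form -/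
theorem absX {ℓ : ℕ} [Fact ℓ.Prime] {j : ℕ}
    (x' : R) (B : Finset κ) (Y' : M) (h0 : (0 : κ) ∉ B)
    (hB : ∀ ζ : κ, ζ ^ (ℓ ^ j) = 1 → ∀ e ∈ B, ζ * e ∈ B)
    (hCov : Cov ℓ κ R M x' B Y') (hRig : Rig k κ R M x' Y') (hRot : Rot κ R M x' B Y')
    (eqv : M ≃+* N) (x : F)
    (hx : eqv (algebraMap R M x') = algebraMap F N x)
    (S : (κ ≃ₐ[k] κ) →* (N ≃ₐ[F] N))
    (hcompat : ∀ σ c, S σ (eqv (algebraMap κ M c)) = eqv (algebraMap κ M (σ c))) :
    (∀ (U : Subgroup (κ ≃ₐ[k] κ)), U.index ≠ 0 → ∀ γ : N ≃+* N,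
      γ (algebraMap F N x) ≠ algebraMap F N x →
      Co2 (fun c : κ => eqv (algebraMap κ M c)) (ℓ ^ j) x S U γ →
      ∃ W : ValuationSubring N,
        (∀ c : κ, eqv (algebraMap κ M c) ∈ W) ∧
        (∀ z ∈ W, ∃ c : κ, z - eqv (algebraMap κ M c) ∈ W.nonunits) ∧
        (algebraMap F N x ∈ W.nonunits ∨ (algebraMap F N x)⁻¹ ∈ W.nonunits) ∧
        (∀ (σ : κ ≃ₐ[k] κ) z, S σ z ∈ W ↔ z ∈ W) ∧
        ∀ W' : ValuationSubring N, (∀ c : κ, eqv (algebraMap κ M c) ∈ W') → W' ≠ ⊤ →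
          ∀ (U' : Subgroup (κ ≃ₐ[k] κ)) (γ' : N ≃+* N), U'.index ≠ 0 → γ' ≠ RingEquiv.refl N →
          Co2 (fun c : κ => eqv (algebraMap κ M c)) (ℓ ^ j) x S U' γ' →
          (∀ z, γ' z ∈ W' ↔ z ∈ W') → W' = W) ∧
    (∀ (U U' U'' : Subgroup (κ ≃ₐ[k] κ)), U.index ≠ 0 → U'.index ≠ 0 → U''.index ≠ 0 →
      ∀ γ γ' γ'' : N ≃+* N, γ'' (algebraMap F N x) ≠ algebraMap F N x →
      Co2 (fun c : κ => eqv (algebraMap κ M c)) (ℓ ^ j) x S U γ →
      Co2 (fun c : κ => eqv (algebraMap κ M c)) (ℓ ^ j) x S U' γ' →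
      Co2 (fun c : κ => eqv (algebraMap κ M c)) (ℓ ^ j) x S U'' γ'' →
      γ (algebraMap F N x) = γ' (algebraMap F N x) → γ = γ') ∧
    (∀ (U : Subgroup (κ ≃ₐ[k] κ)), U.index ≠ 0 → ∀ W : ValuationSubring N,
      (∀ c : κ, eqv (algebraMap κ M c) ∈ W) →
      (algebraMap F N x ∈ W.nonunits ∨ (algebraMap F N x)⁻¹ ∈ W.nonunits) →
      (∀ σ ∈ U, ∀ z, S σ z ∈ W ↔ z ∈ W) → ∀ ζ : κ, ζ ^ (ℓ ^ j) = 1 →
      ∃ γ : N ≃+* N, γ (algebraMap F N x) = eqv (algebraMap κ M ζ) * algebraMap F N x ∧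
        (∀ z, γ z ∈ W ↔ z ∈ W) ∧
        ∃ U' : Subgroup (κ ≃ₐ[k] κ), U'.index ≠ 0 ∧
          Co2 (fun c : κ => eqv (algebraMap κ M c)) (ℓ ^ j) x S U' γ) := by
  classical
  have hkb : IsAlgClosed κ := IsAlgClosure.isAlgClosed k
  have hch : CharZero κ := charZero_of_injective_algebraMap (algebraMap k κ).injective
  have hinf := inf_of_rot hCov hRot
  have hm : 0 < ℓ ^ j := pow_pos (Fact.out : ℓ.Prime).pos j
  let s' : (κ ≃ₐ[k] κ) →* RingAut M := conjSec eqv S
  have hs' : ∀ σ z, eqv (s' σ z) = S σ (eqv z) := fun σ z => conjSec_apply eqv S σ z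
  have hconst : ∀ σ c, s' σ (algebraMap κ M c) = algebraMap κ M (σ c) := by
    intro σ c
    apply eqv.injective
    rw [hs', hcompat]
  have hbase : ∀ σ (z : F) (w : M), eqv w = algebraMap F N z → s' σ w = w := by
    intro σ z w hw
    apply eqv.injective
    rw [hs', hw]
    exact (S σ).commutes z
  have hSec : SecR k κ R M x' s' := ⟨hconst, fun σ => hbase σ x _ hx⟩
  have hX0 : algebraMap R M x' ≠ 0 := by
    intro h1
    have h2 := trX hCov
    rw [h1] at h2
    exact h2 isAlgebraic_zero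
  have hgal : ∀ γ : N ≃+* N, ∀ U : Subgroup (κ ≃ₐ[k] κ),
      Co2 (fun c : κ => eqv (algebraMap κ M c)) (ℓ ^ j) x S U γ →
      ∃ g : M ≃ₐ[κ] M, (∀ z, eqv (g z) = γ (eqv z)) ∧ Zp (ℓ ^ j) (algebraMap R M x') s' U g := by
    intro γ U h
    let g0 : M ≃+* M := (eqv.trans γ).trans eqv.symm
    have hg0 : ∀ z, eqv (g0 z) = γ (eqv z) := fun z => eqv.apply_symm_apply _
    let g : M ≃ₐ[κ] M := AlgEquiv.ofRingEquiv (f := g0) (fun c => by
      apply eqv.injective
      rw [hg0]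
      exact h.con c)
    have hg : ∀ z, eqv (g z) = γ (eqv z) := hg0
    refine ⟨g, hg, ?_, fun σ hσ z => ?_⟩
    · have h1 : (g (algebraMap R M x') / algebraMap R M x') ^ (ℓ ^ j) = algebraMap κ M 1 := by
        rw [div_pow, map_one]
        rw [div_eq_one_iff_eq (pow_ne_zero _ hX0)]
        apply eqv.injective
        rw [map_pow, map_pow, hg, hx]
        exact h.fix
      obtain ⟨ζ, hζ, hζ1⟩ := root_const hm h1
      exact ⟨ζ, hζ1, by rw [← hζ, div_mul_cancel₀ _ hX0]⟩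
    · apply eqv.injective
      rw [hg, hs', hs', hg, h.com σ hσ]
  have hne : ∀ (γ : N ≃+* N) (g : M ≃ₐ[κ] M), (∀ z, eqv (g z) = γ (eqv z)) →
      γ ≠ RingEquiv.refl N → g ≠ 1 := by
    intro γ g hg h1 h2
    apply h1
    ext z
    have h3 := hg (eqv.symm z)
    rw [h2, eqv.apply_symm_apply] at h3
    rw [← h3]
    exact eqv.apply_symm_apply z
  have hmov : ∀ (γ : N ≃+* N) (g : M ≃ₐ[κ] M), (∀ z, eqv (g z) = γ (eqv z)) →
      γ (algebraMap F N x) ≠ algebraMap F N x → g (algebraMap R M x') ≠ algebraMap R M x' := by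
    intro γ g hg h1 h2
    apply h1
    rw [← hx, ← hg, h2]
  have hmem : ∀ (Q : Place κ M) (z : N), z ∈ Q.O.comap (eqv.symm : N →+* M) ↔ eqv.symm z ∈ Q.O :=
    fun Q z => Iff.rfl
  -- valuation rings of `N` and places of `M`
  have hplace : ∀ W' : ValuationSubring N, (∀ c : κ, eqv (algebraMap κ M c) ∈ W') → W' ≠ ⊤ →
      ∃ Q : Place κ M, Q.O = W'.comap (eqv : M →+* N) := by
    intro W' hW'1 hW'2
    have htop : W'.comap (eqv : M →+* N) ≠ ⊤ := by
      intro h0
      apply hW'2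
      ext z
      refine ⟨fun _ => trivial, fun _ => ?_⟩
      have h1 : eqv.symm z ∈ W'.comap (eqv : M →+* N) := by rw [h0]; trivial
      have h2 : eqv (eqv.symm z) ∈ W' := h1
      rwa [eqv.apply_symm_apply] at h2
    obtain ⟨Q, hQ, -⟩ := hCov.loc _ (fun c => hW'1 c) htop
    exact ⟨Q, hQ⟩
  have hback : ∀ (W' : ValuationSubring N) (Q : Place κ M), Q.O = W'.comap (eqv : M →+* N) →
      W' = Q.O.comap (eqv.symm : N →+* M) := by
    intro W' Q hQ
    ext z
    rw [hmem, hQ]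
    show z ∈ W' ↔ eqv (eqv.symm z) ∈ W'
    rw [eqv.apply_symm_apply]
  refine ⟨?_, ?_, ?_⟩
  · intro U hU γ h1 hγ
    obtain ⟨g, hg, hgZ⟩ := hgal γ U hγ
    have hgx := hmov γ g hg h1
    obtain ⟨Q, hQg, hQfix, hall, hQun⟩ :=
      afsX hRig hCov hinf hB hSec hU hgZ (fun h2 => hgx (by rw [h2]; rfl))
    have hQx : Q.ord (algebraMap R M x') ≠ 0 := by
      intro h3
      obtain ⟨ζ, hζ, hζx⟩ := hgZ.rot
      have h4 := eig_one hCov hQg hX0 h3 hζx
      rw [h4, map_one, one_mul] at hζx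
      exact hgx hζx
    refine ⟨Q.O.comap (eqv.symm : N →+* M), ?_, ?_, ?_, ?_, ?_⟩
    · intro c
      rw [hmem, eqv.symm_apply_apply, Place.mem_O]
      exact Q.reg_const c
    · intro z hz
      rw [hmem] at hz
      by_cases hz0 : z = 0
      · refine ⟨0, ?_⟩
        rw [comap_non, hz0, map_zero, map_zero, sub_zero, map_zero]
        exact nonunits_iff.2 ⟨zero_mem _, Or.inl rfl⟩
      have hz0' : eqv.symm z ≠ 0 := (map_ne_zero_iff _ eqv.symm.injective).2 hz0
      rw [O_iff Q hz0'] at hz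
      obtain ⟨c, hc⟩ := Pool.Agent.Y536.PS.res_const κ M (algebraMap R M x') hCov.alg Q _ hz
      refine ⟨c, ?_⟩
      rw [comap_non, map_sub, eqv.symm_apply_apply]
      rcases hc with hc | hc
      · rw [hc, sub_self]
        exact nonunits_iff.2 ⟨zero_mem _, Or.inl rfl⟩
      · have h0 : eqv.symm z - algebraMap κ M c ≠ 0 := by
          intro h0
          rw [h0, Q.ord_zero] at hc
          exact lt_irrefl _ hc
        exact (O_non_iff Q h0).2 hc
    · rcases lt_or_gt_of_ne hQx with h2 | h2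
      · right
        rw [comap_non, map_inv₀, ← hx, eqv.symm_apply_apply]
        refine (O_non_iff Q (inv_ne_zero hX0)).2 ?_
        rw [Q.ord_inv]
        omega
      · left
        rw [comap_non, ← hx, eqv.symm_apply_apply]
        exact (O_non_iff Q hX0).2 h2
    · intro σ z
      rw [hmem, hmem]
      have h1 : eqv.symm (S σ z) = s' σ (eqv.symm z) := by
        apply eqv.injective
        rw [hs', eqv.apply_symm_apply, eqv.apply_symm_apply]
      rw [h1]
      exact O_of_fixes Q (s' σ) (hQfix σ) _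
    · intro W' hW'1 hW'2 U' γ' hU' hγ'1 hγ' hW'3
      obtain ⟨Q', hQ'⟩ := hplace W' hW'1 hW'2
      obtain ⟨g', hg', hgZ'⟩ := hgal γ' U' hγ'
      have h2 : Q' = Q := by
        refine hQun Q' U' g' hU' hgZ' (hne γ' g' hg' hγ'1) ?_
        refine fixes_of_O Q' (g' : M ≃+* M) (RingEquiv.refl κ) (fun c => ?_) fun z => ?_
        · show g' (algebraMap κ M c) = algebraMap κ M c
          exact g'.commutes c
        · rw [hQ']
          show eqv (g' z) ∈ W' ↔ eqv z ∈ W'
          rw [hg']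
          exact hW'3 _
      rw [hback W' Q' hQ', h2]
  · intro U U' U'' hU hU' hU'' γ γ' γ'' h1 hγ hγ' hγ'' hxx
    obtain ⟨g, hg, hgZ⟩ := hgal γ U hγ
    obtain ⟨g', hg', hgZ'⟩ := hgal γ' U' hγ'
    obtain ⟨g'', hg'', hgZ''⟩ := hgal γ'' U'' hγ''
    have h2 : g = g' := by
      refine Zp.unique hRig hCov h0 hinf hB hSec hU hU' hU'' hgZ'' (hmov γ'' g'' hg'' h1) hgZ
        hgZ' ?_
      apply eqv.injective
      rw [hg, hg', hx, hxx]
    ext z
    have h3 := hg (eqv.symm z)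
    have h4 := hg' (eqv.symm z)
    rw [eqv.apply_symm_apply] at h3 h4
    rw [← h3, ← h4, h2]
  · intro U hU W hW1 hWx hW3 ζ hζ
    have hnon' : ∀ z : M, z ∈ (W.comap (eqv : M →+* N)).nonunits ↔ eqv z ∈ W.nonunits :=
      fun z => comap_non eqv W z
    have hxN0 : algebraMap F N x ≠ 0 := by
      rw [← hx]
      exact (map_ne_zero_iff _ eqv.injective).2 hX0
    have htop : W ≠ ⊤ := by
      intro h1
      rw [h1] at hWx
      rcases hWx with h2 | h2
      · rcases (nonunits_iff.1 h2).2 with h3 | h3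
        · exact hxN0 h3
        · exact h3 trivial
      · rcases (nonunits_iff.1 h2).2 with h3 | h3
        · exact inv_ne_zero hxN0 h3
        · exact h3 trivial
    obtain ⟨Q, hQ⟩ := hplace W hW1 htop
    have hQx : Q.ord (algebraMap R M x') ≠ 0 := by
      rcases hWx with h2 | h2
      · rw [← hx, ← hnon', ← hQ] at h2
        have := (O_non_iff Q hX0).1 h2
        omega
      · rw [← hx, ← map_inv₀, ← hnon', ← hQ] at h2
        have h3 := (O_non_iff Q (inv_ne_zero hX0)).1 h2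
        rw [Q.ord_inv] at h3
        omega
    obtain ⟨g, hgx, hgQ, U', hU', hgZ⟩ := cuspX (k := k) hCov hm h0 hB hSec hU hQx
      (fun σ hσ => by
        refine fixes_of_O Q (s' σ) (σ : κ ≃+* κ) (fun c => hconst σ c) fun z => ?_
        rw [hQ]
        show eqv (s' σ z) ∈ W ↔ eqv z ∈ W
        rw [hs']
        exact hW3 σ hσ _) hζ
    let γ : N ≃+* N := (eqv.symm.trans (g : M ≃+* M)).trans eqv
    have hγ : ∀ z, γ z = eqv (g (eqv.symm z)) := fun z => rfl
    have hγx : γ (algebraMap F N x) = eqv (algebraMap κ M ζ) * algebraMap F N x := by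
      rw [hγ, ← hx, eqv.symm_apply_apply, hgx, map_mul]
    refine ⟨γ, hγx, ?_, U', hU', ?_, ?_, ?_⟩
    · intro z
      have h2 : ∀ w : N, w ∈ W ↔ eqv.symm w ∈ Q.O := by
        intro w
        rw [hQ]
        show w ∈ W ↔ eqv (eqv.symm w) ∈ W
        rw [eqv.apply_symm_apply]
      rw [h2, h2, hγ, eqv.symm_apply_apply]
      exact O_of_fixes Q (g : M ≃+* M) hgQ _
    · intro c
      show γ (eqv (algebraMap κ M c)) = eqv (algebraMap κ M c)
      rw [hγ, eqv.symm_apply_apply, g.commutes]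
    · rw [hγx, mul_pow, ← map_pow, ← map_pow, hζ, map_one, map_one, one_mul]
    · intro σ hσ z
      rw [hγ, hγ]
      have h1 : eqv.symm (S σ z) = s' σ (eqv.symm z) := by
        apply eqv.injective
        rw [hs', eqv.apply_symm_apply, eqv.apply_symm_apply]
      rw [h1, hgZ.com σ hσ, hs']

end absM

end Pool.Agent.R925.X
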