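import Pool.Agent.R925.X.Unq
import Pool.Agent.R925.Q.Inst

/-! Sections which commute with automorphisms of `ℓ`-power order that move `x`. -/

set_option autoImplicit false
set_option linter.all false

open Polynomial FF

namespace Pool.Agent.R925.X

open Pool.Agent.Y157.PS Pool.Agent.Y31.PS Pool.Agent.R925.Q

section

variable {κ R M : Type} [Field κ] [Field R] [Field M] [Algebra κ R] [Algebra R M] [Algebra κ M]
  [IsScalarTower κ R M] {x : R}

/-- an automorphism over the constants which multiplies `x` by a constant maps `R` to itself -/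
theorem stR_of_rot (hx : RatF κ x) {γ : M ≃ₐ[κ] M} {ζ : κ}
    (h : γ (algebraMap R M x) = algebraMap κ M ζ * algebraMap R M x) : StR R γ := by
  intro t
  have ht : t ∈ IntermediateField.adjoin κ {x} := by rw [hx.gen]; trivial
  induction ht using IntermediateField.adjoin_induction with
  | mem y hy =>
    rw [Set.mem_singleton_iff] at hy
    subst hy
    exact ⟨algebraMap κ R ζ * y, by rw [h, map_mul, ← IsScalarTower.algebraMap_apply]⟩
  | algebraMap c =>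
    exact ⟨algebraMap κ R c, by rw [← IsScalarTower.algebraMap_apply, γ.commutes]⟩
  | add a b _ _ ha hb =>
    obtain ⟨a', ha'⟩ := ha
    obtain ⟨b', hb'⟩ := hb
    exact ⟨a' + b', by rw [map_add, map_add, ha', hb', map_add]⟩
  | inv a _ ha =>
    obtain ⟨a', ha'⟩ := ha
    exact ⟨a'⁻¹, by rw [map_inv₀, map_inv₀, ha', map_inv₀]⟩
  | mul a b _ _ ha hb =>
    obtain ⟨a', ha'⟩ := ha
    obtain ⟨b', hb'⟩ := hb
    exact ⟨a' * b', by rw [map_mul, map_mul, ha', hb', map_mul]⟩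

theorem RatF_inv (hx : RatF κ x) : RatF κ x⁻¹ := by
  refine ⟨fun h => hx.trans ?_, ?_⟩
  · have h1 := h.inv
    rwa [inv_inv] at h1
  · rw [← hx.gen]
    apply le_antisymm
    · rw [IntermediateField.adjoin_simple_le_iff]
      exact inv_mem (IntermediateField.mem_adjoin_simple_self κ x)
    · rw [IntermediateField.adjoin_simple_le_iff]
      have h1 := inv_mem (IntermediateField.mem_adjoin_simple_self κ x⁻¹)
      rwa [inv_inv] at h1

end

section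

variable {k κ R M : Type} [Field k] [Field κ] [Algebra k κ] [Field R] [Field M] [Algebra κ R]
  [Algebra R M] [Algebra κ M] [IsScalarTower κ R M]

/-- `γ` multiplies `x` by an `m`-th root of unity and commutes with the image of `U` -/
structure Zp (m : ℕ) (X : M) (s : (κ ≃ₐ[k] κ) →* RingAut M) (U : Subgroup (κ ≃ₐ[k] κ))
    (γ : M ≃ₐ[κ] M) : Prop where
  rot : ∃ ζ : κ, ζ ^ m = 1 ∧ γ X = algebraMap κ M ζ * X
  com : ∀ σ ∈ U, ∀ z, γ (s σ z) = s σ (γ z)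

variable {m : ℕ} {X : M} {s : (κ ≃ₐ[k] κ) →* RingAut M} {U U' : Subgroup (κ ≃ₐ[k] κ)}
  {γ γ' : M ≃ₐ[κ] M}

theorem Zp.mono (h : Zp m X s U γ) (hU : U' ≤ U) : Zp m X s U' γ :=
  ⟨h.rot, fun σ hσ => h.com σ (hU hσ)⟩

theorem Zp.mul (h : Zp m X s U γ) (h' : Zp m X s U γ') : Zp m X s U (γ * γ') := by
  obtain ⟨ζ, h1, h2⟩ := h.rot
  obtain ⟨ζ', h1', h2'⟩ := h'.rot
  refine ⟨⟨ζ * ζ', by rw [mul_pow, h1, h1', one_mul], ?_⟩, fun σ hσ z => ?_⟩
  · rw [AlgEquiv.mul_apply, h2', map_mul, γ.commutes, h2, map_mul]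
    ring
  · rw [AlgEquiv.mul_apply, AlgEquiv.mul_apply, h'.com σ hσ, h.com σ hσ]

theorem Zp.one : Zp m X s U (1 : M ≃ₐ[κ] M) :=
  ⟨⟨1, one_pow _, by rw [map_one, one_mul]; rfl⟩, fun _ _ _ => rfl⟩

theorem Zp.pow (h : Zp m X s U γ) (n : ℕ) : Zp m X s U (γ ^ n) := by
  induction n with
  | zero => rw [pow_zero]; exact Zp.one
  | succ n ih => rw [pow_succ]; exact ih.mul h

theorem Fixes_pow' {W : Place κ M} {γ : M ≃ₐ[κ] M} (h : Fixes W γ) (n : ℕ) :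
    Fixes W (γ ^ n : M ≃ₐ[κ] M) := by
  induction n with
  | zero => intro z; rfl
  | succ n ih =>
    intro z
    rw [pow_succ, AlgEquiv.mul_apply, ih, h]

/-- the conjugate of an automorphism over the constants under a semilinear automorphism -/
theorem conjS (hs : ∀ σ c, s σ (algebraMap κ M c) = algebraMap κ M (σ c)) (γ : M ≃ₐ[κ] M)
    (σ : κ ≃ₐ[k] κ) : ∃ η : M ≃ₐ[κ] M, ∀ z, s σ (η z) = γ (s σ z) := by
  let f : M ≃+* M := ((s σ).trans (γ : M ≃+* M)).trans (s σ).symm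
  have hf : ∀ z, s σ (f z) = γ (s σ z) := fun z => (s σ).apply_symm_apply _
  refine ⟨AlgEquiv.ofRingEquiv (f := f) fun c => ?_, fun z => hf z⟩
  apply (s σ).injective
  rw [hf, hs, γ.commutes]

theorem s_mulz (σ τ : κ ≃ₐ[k] κ) (z : M) : s (σ * τ) z = s σ (s τ z) := by
  rw [map_mul]; rfl

end

section

variable {k κ R M : Type} [Field k] [CharZero k]
    [Field κ] [Algebra k κ] [IsAlgClosure k κ]
    [Field R] [Field M] [Algebra κ R] [Algebra R M] [Algebra κ M] [IsScalarTower κ R M]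
    {ℓ : ℕ} [Fact ℓ.Prime] {x : R} {B : Finset κ} {Y : M} {m : ℕ}

theorem Y_ne (hC : Cov ℓ κ R M x B Y) (htr : Transcendental κ (algebraMap R M x)) : Y ≠ 0 := by
  have hp := (Fact.out : ℓ.Prime).pos
  intro h
  have h2 := hC.eqn
  rw [h, zero_pow hp.ne'] at h2
  have h3 := Finset.prod_eq_zero_iff.1 h2.symm
  obtain ⟨e, -, he⟩ := h3
  apply htr
  rw [sub_eq_zero.1 he]
  exact isAlgebraic_algebraMap _

theorem trX (hC : Cov ℓ κ R M x B Y) : Transcendental κ (algebraMap R M x) :=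
  (transcendental_algebraMap_iff (algebraMap R M).injective).2 hC.rat.trans

/-- the action on the product -/
theorem prod_rot (hm : 0 < m) (hB : ∀ ζ : κ, ζ ^ m = 1 → ∀ e ∈ B, ζ * e ∈ B) {ζ : κ}
    (hζ : ζ ^ m = 1) (X : M) : ∏ e ∈ B, (algebraMap κ M ζ * X - algebraMap κ M e) =
      algebraMap κ M (ζ ^ B.card) * ∏ e ∈ B, (X - algebraMap κ M e) := by
  have hζ0 : ζ ≠ 0 := by
    rintro rfl
    rw [zero_pow hm.ne'] at hζ
    exact zero_ne_one hζ
  have h1 : ∏ e ∈ B, (algebraMap κ M ζ * X - algebraMap κ M e) =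
      ∏ e ∈ B, (algebraMap κ M ζ * (X - algebraMap κ M e)) := by
    symm
    refine Finset.prod_bij (fun e _ => ζ * e) (fun e he => hB ζ hζ e he)
      (fun a _ b _ h => mul_left_cancel₀ hζ0 h) (fun e he => ?_) (fun e _ => ?_)
    · refine ⟨ζ⁻¹ * e, hB ζ⁻¹ (by rw [inv_pow, hζ, inv_one]) e he, ?_⟩
      rw [mul_inv_cancel_left₀ hζ0]
    · rw [map_mul]; ring
  rw [h1, Finset.prod_mul_distrib, Finset.prod_const, map_pow]

include k in
theorem actY2 (hC : Cov ℓ κ R M x B Y) (hm : 0 < m)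
    (hB : ∀ ζ : κ, ζ ^ m = 1 → ∀ e ∈ B, ζ * e ∈ B) {γ : M ≃ₐ[κ] M} {ζ : κ} (hζ : ζ ^ m = 1)
    (h : γ (algebraMap R M x) = algebraMap κ M ζ * algebraMap R M x) :
    ∃ η : κ, η ^ (ℓ * m) = 1 ∧ γ Y = algebraMap κ M η * Y := by
  haveI : IsAlgClosed κ := IsAlgClosure.isAlgClosed k
  haveI : CharZero κ := charZero_of_injective_algebraMap (algebraMap k κ).injective
  have hp := (Fact.out : ℓ.Prime).pos
  have hY0 := Y_ne hC (trX hC)
  have h1 : (γ Y) ^ ℓ = algebraMap κ M (ζ ^ B.card) * Y ^ ℓ := by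
    rw [← map_pow, hC.eqn, map_prod, ← prod_rot hm hB hζ]
    refine Finset.prod_congr rfl fun e _ => ?_
    rw [map_sub, h, γ.commutes]
  have h2 : (γ Y / Y) ^ ℓ = algebraMap κ M (ζ ^ B.card) := by
    rw [div_pow, h1, mul_div_cancel_right₀ _ (pow_ne_zero _ hY0)]
  obtain ⟨η, h3, h4⟩ := root_const hp h2
  refine ⟨η, ?_, by rw [← h3, div_mul_cancel₀ _ hY0]⟩
  rw [pow_mul, h4, ← pow_mul, mul_comm, pow_mul, hζ, one_pow]

/-- rigidity -/
theorem eq_of (hR : Rig k κ R M x Y) (hC : Cov ℓ κ R M x B Y)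
    {s : (κ ≃ₐ[k] κ) →* RingAut M} (hs : SecR k κ R M x s) {U U' : Subgroup (κ ≃ₐ[k] κ)}
    (hU : U.index ≠ 0) (hU' : U'.index ≠ 0) {α β : M ≃ₐ[κ] M}
    (hα : ∀ σ ∈ U, ∀ z, α (s σ z) = s σ (α z)) (hβ : ∀ σ ∈ U', ∀ z, β (s σ z) = s σ (β z))
    (hx : α (algebraMap R M x) = β (algebraMap R M x)) (hY : α Y = β Y) : α = β := by
  haveI : IsAlgClosed κ := IsAlgClosure.isAlgClosed k
  haveI : CharZero κ := charZero_of_injective_algebraMap (algebraMap k κ).injective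
  obtain ⟨φ₀, ⟨h1, h2⟩, hrig⟩ := hR (U ⊓ U') (Subgroup.index_inf_ne_zero hU hU')
  have hL : Lift κ M (algebraMap R M x) (s φ₀) (φ₀ : κ ≃+* κ) :=
    ⟨fun c => hs.const _ c, hs.fixx _⟩
  obtain ⟨g, hg⟩ := toR hC.rat (α⁻¹ * β) (by
    show α.symm (β _) = _
    rw [AlgEquiv.symm_apply_eq, hx])
  have hg' : ∀ z, g z = α.symm (β z) := hg
  have h3 := hrig (s φ₀) hL g (fun z => by
    rw [hg', hg', hβ φ₀ h2]
    apply α.injective
    rw [α.apply_symm_apply, hα φ₀ h1, α.apply_symm_apply]) (by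
    rw [hg', AlgEquiv.symm_apply_eq, hY])
  ext z
  have h4 := hg' z
  rw [h3] at h4
  have h5 : z = α.symm (β z) := h4
  rw [h5, α.apply_symm_apply, ← h5]

/-- symmetries commute -/
theorem Zp.comm (hR : Rig k κ R M x Y) (hC : Cov ℓ κ R M x B Y) (hm : 0 < m)
    (hB : ∀ ζ : κ, ζ ^ m = 1 → ∀ e ∈ B, ζ * e ∈ B)
    {s : (κ ≃ₐ[k] κ) →* RingAut M} (hs : SecR k κ R M x s) {U U' : Subgroup (κ ≃ₐ[k] κ)}
    (hU : U.index ≠ 0) (hU' : U'.index ≠ 0) {γ γ' : M ≃ₐ[κ] M}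
    (h : Zp m (algebraMap R M x) s U γ) (h' : Zp m (algebraMap R M x) s U' γ') :
    γ * γ' = γ' * γ := by
  have h1 : Zp m (algebraMap R M x) s (U ⊓ U') γ := h.mono inf_le_left
  have h2 : Zp m (algebraMap R M x) s (U ⊓ U') γ' := h'.mono inf_le_right
  have hUU := Subgroup.index_inf_ne_zero hU hU'
  obtain ⟨ζ, hζ, hζx⟩ := h.rot
  obtain ⟨ζ', hζ', hζx'⟩ := h'.rot
  obtain ⟨η, -, hη⟩ := actY2 (k := k) hC hm hB hζ hζx
  obtain ⟨η', -, hη'⟩ := actY2 (k := k) hC hm hB hζ' hζx'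
  refine eq_of hR hC hs hUU hUU (h1.mul h2).com (h2.mul h1).com ?_ ?_
  · rw [AlgEquiv.mul_apply, AlgEquiv.mul_apply, hζx, hζx', map_mul, map_mul, γ.commutes,
      γ'.commutes, hζx, hζx']
    ring
  · rw [AlgEquiv.mul_apply, AlgEquiv.mul_apply, hη, hη', map_mul, map_mul, γ.commutes,
      γ'.commutes, hη, hη']
    ring

/-- the order of a symmetry -/
theorem Zp.ord (hR : Rig k κ R M x Y) (hC : Cov ℓ κ R M x B Y) (hm : 0 < m)
    (hB : ∀ ζ : κ, ζ ^ m = 1 → ∀ e ∈ B, ζ * e ∈ B)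
    {s : (κ ≃ₐ[k] κ) →* RingAut M} (hs : SecR k κ R M x s) {U : Subgroup (κ ≃ₐ[k] κ)}
    (hU : U.index ≠ 0) {γ : M ≃ₐ[κ] M} (h : Zp m (algebraMap R M x) s U γ) :
    γ ^ (ℓ * m) = 1 := by
  obtain ⟨ζ, hζ, hζx⟩ := h.rot
  obtain ⟨η, hη, hηY⟩ := actY2 (k := k) hC hm hB hζ hζx
  have key : ∀ (z : M) (c : κ), γ z = algebraMap κ M c * z → ∀ n : ℕ,
      (γ ^ n) z = algebraMap κ M (c ^ n) * z := by
    intro z c hc n
    induction n with
    | zero => rw [pow_zero, pow_zero, map_one, one_mul]; rfl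
    | succ n ih =>
      rw [pow_succ, AlgEquiv.mul_apply, hc, map_mul, (γ ^ n).commutes, ih, pow_succ, map_mul]
      ring
  refine eq_of hR hC hs hU hU (h.pow _).com (Zp.one (m := m) (X := algebraMap R M x)).com ?_ ?_
  · rw [key _ _ hζx, mul_comm ℓ m, pow_mul, hζ, one_pow, map_one, one_mul]
    rfl
  · rw [key _ _ hηY, hη, map_one, one_mul]
    rfl

/-- a power of order `ℓ` -/
theorem Zp.pow_ell {j : ℕ} (hR : Rig k κ R M x Y) (hC : Cov ℓ κ R M x B Y)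
    (hB : ∀ ζ : κ, ζ ^ (ℓ ^ j) = 1 → ∀ e ∈ B, ζ * e ∈ B)
    {s : (κ ≃ₐ[k] κ) →* RingAut M} (hs : SecR k κ R M x s) {U : Subgroup (κ ≃ₐ[k] κ)}
    (hU : U.index ≠ 0) {γ : M ≃ₐ[κ] M} (h : Zp (ℓ ^ j) (algebraMap R M x) s U γ) (h1 : γ ≠ 1) :
    ∃ i : ℕ, γ ^ i ≠ 1 ∧ (γ ^ i) ^ ℓ = 1 := by
  classical
  have hp := (Fact.out : ℓ.Prime).pos
  have h2 := h.ord hR hC (pow_pos hp j) hB hs hU
  rw [← pow_succ'] at h2
  have hex : ∃ n : ℕ, γ ^ (ℓ ^ n) = 1 := ⟨_, h2⟩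
  obtain ⟨n, hn⟩ : ∃ n, Nat.find hex = n := ⟨_, rfl⟩
  have hfind := Nat.find_spec hex
  rw [hn] at hfind
  rcases n with _ | n
  · exfalso
    rw [pow_zero, pow_one] at hfind
    exact h1 hfind
  · refine ⟨ℓ ^ n, fun h3 => ?_, ?_⟩
    · have := Nat.find_min' hex h3
      omega
    · rw [← pow_mul, ← pow_succ, hfind]

/-- **sections which commute with automorphisms of `ℓ`-power order** -/
theorem afsX {j : ℕ} (hR : Rig k κ R M x Y) (hC : Cov ℓ κ R M x B Y)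
    (hinf : ¬ FiniteDimensional R M)
    (hB : ∀ ζ : κ, ζ ^ (ℓ ^ j) = 1 → ∀ e ∈ B, ζ * e ∈ B)
    {s : (κ ≃ₐ[k] κ) →* RingAut M} (hs : SecR k κ R M x s) {U : Subgroup (κ ≃ₐ[k] κ)}
    (hU : U.index ≠ 0) {γ : M ≃ₐ[κ] M} (h : Zp (ℓ ^ j) (algebraMap R M x) s U γ) (h1 : γ ≠ 1) :
    ∃ W : Place κ M, Fixes W γ ∧ (∀ σ, Fixes W (s σ)) ∧
      (∀ (U' : Subgroup (κ ≃ₐ[k] κ)) (γ' : M ≃ₐ[κ] M), U'.index ≠ 0 →
        Zp (ℓ ^ j) (algebraMap R M x) s U' γ' → Fixes W γ') ∧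
      ∀ (W' : Place κ M) (U' : Subgroup (κ ≃ₐ[k] κ)) (γ' : M ≃ₐ[κ] M), U'.index ≠ 0 →
        Zp (ℓ ^ j) (algebraMap R M x) s U' γ' → γ' ≠ 1 → Fixes W' γ' → W' = W := by
  haveI : IsAlgClosed κ := IsAlgClosure.isAlgClosed k
  haveI : CharZero κ := charZero_of_injective_algebraMap (algebraMap k κ).injective
  have hp := (Fact.out : ℓ.Prime).pos
  have hm : 0 < ℓ ^ j := pow_pos hp j
  obtain ⟨i, hi1, hiℓ⟩ := h.pow_ell hR hC hB hs hU h1
  have hstR : ∀ (U' : Subgroup (κ ≃ₐ[k] κ)) (γ' : M ≃ₐ[κ] M),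
      Zp (ℓ ^ j) (algebraMap R M x) s U' γ' → StR R γ' := by
    rintro U' γ' h'
    obtain ⟨ζ, -, h2⟩ := h'.rot
    exact stR_of_rot hC.rat h2
  obtain ⟨W, hW⟩ := exf3 hC (γ ^ i) hiℓ hi1 (hstR U _ (h.pow i))
  have hun : ∀ W' : Place κ M, Fixes W' (γ ^ i : M ≃ₐ[κ] M) → W' = W := fun W' hW' =>
    unq3 hC hinf hiℓ hi1 (hstR U _ (h.pow i)) hW' hW
  -- all symmetries fix `W`
  have hall : ∀ (U' : Subgroup (κ ≃ₐ[k] κ)) (γ' : M ≃ₐ[κ] M), U'.index ≠ 0 →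
      Zp (ℓ ^ j) (algebraMap R M x) s U' γ' → Fixes W γ' := by
    intro U' γ' hU' h'
    have hc := Zp.comm hR hC hm hB hs hU hU' (h.pow i) h'
    rw [fixes_iff]
    apply hun
    intro z
    rw [pl_ord, pl_ord, ← AlgEquiv.mul_apply, ← hc, AlgEquiv.mul_apply, hW]
  refine ⟨W, hall U γ hU h, fun σ => ?_, hall, ?_⟩
  · -- the image of the section fixes `W`
    obtain ⟨η, hη⟩ := conjS (s := s) hs.const (γ ^ i) σ
    have hcore : U.normalCore.index ≠ 0 := by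
      haveI : U.FiniteIndex := ⟨hU⟩
      exact (Subgroup.finiteIndex_normalCore U).index_ne_zero
    obtain ⟨ζ, hζ, hζx⟩ := (h.pow i).rot
    have hηZ : Zp (ℓ ^ j) (algebraMap R M x) s U.normalCore η := by
      refine ⟨⟨σ.symm ζ, by rw [← map_pow, hζ, map_one], ?_⟩, fun τ hτ z => ?_⟩
      · apply (s σ).injective
        rw [hη, hs.fixx, hζx, map_mul, hs.const, hs.fixx, σ.apply_symm_apply]
      · have h2 : σ * τ * σ⁻¹ ∈ U :=
          Subgroup.normalCore_le U ((Subgroup.normalCore_normal U).conj_mem τ hτ σ)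
        apply (s σ).injective
        rw [hη, ← s_mulz]
        have h3 : σ * τ = (σ * τ * σ⁻¹) * σ := by group
        rw [h3, s_mulz, (h.pow i).com _ h2, ← hη, ← s_mulz, ← s_mulz, ← h3]
    have hηW := hall _ _ hcore hηZ
    have hηn : ∀ (n : ℕ) (z : M), s σ ((η ^ n) z) = ((γ ^ i) ^ n) (s σ z) := by
      intro n
      induction n with
      | zero => intro z; rfl
      | succ n ih =>
        intro z
        rw [pow_succ, AlgEquiv.mul_apply, ih, hη, ← AlgEquiv.mul_apply, ← pow_succ]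
    have hηℓ : η ^ ℓ = 1 := by
      ext z
      apply (s σ).injective
      rw [hηn, hiℓ]
      rfl
    have hη1 : η ≠ 1 := by
      intro h2
      apply hi1
      ext z
      have h4 := hη (s σ⁻¹ z)
      rw [h2, AlgEquiv.one_apply, ← s_mulz, mul_inv_cancel, map_one] at h4
      exact h4.symm
    let Wσ := Place.comapEquiv W (s σ) (σ : κ ≃+* κ) (hs.const σ)
    have h5 : Wσ = W := by
      refine unq3 hC hinf hηℓ hη1 (hstR _ _ hηZ) ?_ hηW
      intro z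
      change W.ord (s σ (η z)) = W.ord (s σ z)
      rw [hη, hW]
    intro z
    change Wσ.ord z = W.ord z
    rw [h5]
  · intro W' U' γ' hU' h' h1' hW'
    obtain ⟨i', hi1', hiℓ'⟩ := h'.pow_ell hR hC hB hs hU' h1'
    exact unq3 hC hinf hiℓ' hi1' (hstR U' _ (h'.pow i')) (Fixes_pow' hW' i')
      (Fixes_pow' (hall U' γ' hU' h') i')

end

end Pool.Agent.R925.X
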