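import Pool.Agent.R925.X.Cen

/-! Symmetries of the sections at the points with `x = 0` or `x = ∞`. -/

set_option autoImplicit false
set_option linter.all false

open Polynomial FF

namespace Pool.Agent.R925.X

open Pool.Agent.Y157.PS Pool.Agent.Y31.PS Pool.Agent.R925.Q

section

variable {ℓ : ℕ} [hℓ : Fact ℓ.Prime] {κ R M : Type} [Field κ] [IsAlgClosed κ] [CharZero κ]
  [Field R] [Field M] [Algebra κ R] [Algebra R M] [Algebra κ M] [IsScalarTower κ R M] {x : R}
  {B : Finset κ} {Y : M}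

/-- the extension `M/R` is infinite -/
theorem inf_of_rot (h : Cov ℓ κ R M x B Y) (hRot : Rot κ R M x B Y) :
    ¬ FiniteDimensional R M := by
  classical
  intro hf
  have i0 := h.gal
  have hp := hℓ.out.pos
  -- the group is an `ℓ`-group
  have hpg : IsPGroup ℓ (M ≃ₐ[R] M) := by
    intro γ
    let bs := Module.finBasis R M
    obtain ⟨N, hN, hmem⟩ := exists_lev h.pow (Finset.univ.image bs)
    obtain ⟨a, ha⟩ := lev_pow hN γ
    refine ⟨a, ?_⟩
    ext z
    apply ha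
    rw [← bs.sum_repr z]
    refine sum_mem fun i _ => ?_
    rw [Algebra.smul_def]
    exact mul_mem (N.algebraMap_mem _) (hmem _ (Finset.mem_image_of_mem _ (Finset.mem_univ i)))
  -- inertia elements
  have hrot : ∀ e ∈ B, ∃ (c : M ≃ₐ[R] M) (W : Place κ M), Fixes W c ∧
      0 < W.ord (algebraMap R M x - algebraMap κ M e) ∧ c ≠ 1 ∧ c ^ ℓ = 1 := by
    intro e he
    obtain ⟨c, W, h1, h2, h3⟩ := hRot e he
    have hWY := h.ordY W he h2
    have hY0 : Y ≠ 0 := by
      rintro rfl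
      rw [W.ord_zero] at hWY
      exact zero_ne_one hWY
    obtain ⟨ζ, hζ, hζY⟩ := h.actY hY0 c
    refine ⟨c, W, h1, h2, ?_, ?_⟩
    · rintro rfl
      exact h3 rfl
    · refine h.stabR a_stab W _ (h1.pow ℓ) Y hWY ?_
      have key : ∀ n : ℕ, (c ^ n) Y = algebraMap κ M (ζ ^ n) * Y := by
        intro n
        induction n with
        | zero => rw [pow_zero, pow_zero, map_one, one_mul]; rfl
        | succ n ih =>
          rw [pow_succ, AlgEquiv.mul_apply, hζY, map_mul, aut_const, ih, pow_succ, map_mul]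
          ring
      rw [key, hζ, map_one, one_mul]
  obtain ⟨e, he, e', he', hee⟩ : ∃ e ∈ B, ∃ e' ∈ B, e ≠ e' := by
    have := Finset.one_lt_card.1 (lt_of_lt_of_le (by norm_num) h.three : 1 < B.card)
    exact this
  obtain ⟨c, W, hc, hW, hc1, hcℓ⟩ := hrot e he
  obtain ⟨c', W', hc', hW', hc1', hcℓ'⟩ := hrot e' he'
  haveI : Nontrivial (M ≃ₐ[R] M) := ⟨⟨c, 1, hc1⟩⟩
  haveI : Finite (M ≃ₐ[R] M) := inferInstance
  have hcen := hpg.center_nontrivial
  obtain ⟨z, hz⟩ := exists_ne (1 : Subgroup.center (M ≃ₐ[R] M))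
  have hz1 : (z : M ≃ₐ[R] M) ≠ 1 := fun h0 => hz (Subtype.ext h0)
  have hex : ∃ n : ℕ, (z : M ≃ₐ[R] M) ^ (ℓ ^ n) = 1 := hpg z
  obtain ⟨n, hn⟩ : ∃ n, Nat.find hex = n := ⟨_, rfl⟩
  have hfind := Nat.find_spec hex
  rw [hn] at hfind
  rcases n with _ | n
  · rw [pow_zero, pow_one] at hfind
    exact hz1 hfind
  set u : M ≃ₐ[R] M := (z : M ≃ₐ[R] M) ^ (ℓ ^ n) with hu
  have hu1 : u ≠ 1 := by
    intro h3
    have := Nat.find_min' hex h3
    omega
  have huℓ : u ^ ℓ = 1 := by rw [hu, ← pow_mul, ← pow_succ, hfind]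
  have huc : ∀ g : M ≃ₐ[R] M, g * u = u * g := by
    intro g
    exact Subgroup.mem_center_iff.1 (Subgroup.pow_mem _ z.2 _) g
  obtain ⟨Wu, hWu⟩ := a_exf ℓ κ R M x B Y h u huℓ hu1
  have hall : ∀ g : M ≃ₐ[R] M, Fixes Wu g := by
    intro g
    rw [fixes_iff]
    refine a_unq ℓ κ R M x B Y h u huℓ hu1 _ _ ?_ hWu
    intro z
    rw [pl_ord, pl_ord, ← AlgEquiv.mul_apply, huc, AlgEquiv.mul_apply, hWu]
  have h1 : W = Wu := a_unq ℓ κ R M x B Y h c hcℓ hc1 W Wu hc (hall c)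
  have h2 : W' = Wu := a_unq ℓ κ R M x B Y h c' hcℓ' hc1' W' Wu hc' (hall c')
  rw [h1] at hW
  rw [h2] at hW'
  have := ord_sub_const hW hee
  omega

omit [IsAlgClosed κ] [CharZero κ] in
/-- `x` or `1/x` is a uniformiser -/
theorem ordX (h : Cov ℓ κ R M x B Y) (h0 : (0 : κ) ∉ B) (W : Place κ M)
    (hW : W.ord (algebraMap R M x) ≠ 0) :
    W.ord (algebraMap R M x) = 1 ∨ W.ord (algebraMap R M x) = -1 := by
  have hp := hℓ.out.pos
  have hx0 : algebraMap R M x ≠ 0 := by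
    intro h1
    rw [h1, W.ord_zero] at hW
    exact hW rfl
  have key : ∀ a : κ, a ≠ 0 → 0 < W.ord (algebraMap R M x - algebraMap κ M a) → False := by
    intro a ha h1
    have h2 := ord_sub_const h1 ha
    rw [map_zero, sub_zero] at h2
    exact hW h2
  rcases h.loc' W with ⟨e, he, h1, -⟩ | ⟨a, ha, h1⟩ | h1
  · exfalso
    refine key e (fun h2 => h0 (h2 ▸ he)) ?_
    rw [h1]
    exact_mod_cast hp
  · by_cases ha0 : a = 0
    · left
      rw [ha0, map_zero, sub_zero] at h1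
      exact h1
    · exact (key a ha0 (by rw [h1]; norm_num)).elim
  · exact Or.inr h1

/-- an automorphism which fixes a place with `x = 0` or `x = ∞` and `x` is trivial -/
theorem stabX (h : Cov ℓ κ R M x B Y) (h0 : (0 : κ) ∉ B) {W : Place κ M}
    (hW : W.ord (algebraMap R M x) ≠ 0) {γ γ' : M ≃ₐ[κ] M} (h1 : Fixes W γ) (h2 : Fixes W γ')
    (hx : γ (algebraMap R M x) = γ' (algebraMap R M x)) : γ = γ' := by
  have h3 : Fixes W (γ⁻¹ * γ' : M ≃ₐ[κ] M) := by
    intro z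
    rw [AlgEquiv.mul_apply, ← h1]
    have h4 : γ ((γ⁻¹ : M ≃ₐ[κ] M) (γ' z)) = γ' z := γ.apply_symm_apply _
    rw [h4, h2]
  have h5 : (γ⁻¹ * γ' : M ≃ₐ[κ] M) (algebraMap R M x) = algebraMap R M x := by
    show γ.symm (γ' _) = _
    rw [AlgEquiv.symm_apply_eq, hx]
  have h6 : (γ⁻¹ * γ' : M ≃ₐ[κ] M) = 1 := by
    rcases ordX h h0 W hW with h7 | h7
    · exact stab1 h h3 h7 h5
    · refine stab1 h h3 (π := (algebraMap R M x)⁻¹) ?_ ?_
      · rw [W.ord_inv, h7]; norm_num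
      · rw [map_inv₀, h5]
  exact (inv_mul_eq_one.1 h6)

/-- an automorphism over a rotation -/
theorem exists_rot {m : ℕ} (h : Cov ℓ κ R M x B Y) (hm : 0 < m)
    (hB : ∀ ζ : κ, ζ ^ m = 1 → ∀ e ∈ B, ζ * e ∈ B) {ζ : κ} (hζ : ζ ^ m = 1) :
    ∃ α : M ≃ₐ[κ] M, α (algebraMap R M x) = algebraMap κ M ζ * algebraMap R M x := by
  have i0 := h.gal
  have hp := hℓ.out.pos
  have htr := trX h
  have hζ0 : ζ ≠ 0 := by
    rintro rfl
    rw [zero_pow hm.ne'] at hζ
    exact zero_ne_one hζ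
  have hY0 := Y_ne h htr
  obtain ⟨j, hj⟩ := a_emb ℓ κ R M x B Y h M Set.univ
    (fun g hg hW => h.root g hg fun W => hW W trivial)
    (algebraMap κ M ζ * algebraMap R M x) (by
      intro h1
      apply htr
      have h2 : algebraMap R M x = algebraMap κ M ζ⁻¹ * (algebraMap κ M ζ * algebraMap R M x) := by
        rw [← mul_assoc, ← map_mul, inv_mul_cancel₀ hζ0, map_one, one_mul]
      rw [h2]
      exact (isAlgebraic_algebraMap _).mul h1) (by
      intro P _
      have hc : ζ ^ B.card ≠ 0 := pow_ne_zero _ hζ0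
      have hc' : algebraMap κ M (ζ ^ B.card) ≠ 0 := by rw [_root_.map_ne_zero]; exact hc
      rw [prod_rot hm hB hζ, ← h.eqn, P.ord_mul hc' (pow_ne_zero _ hY0), P.ord_const hc, zero_add,
        P.ord_pow]
      exact dvd_mul_right _ _)
  have hjn : ∀ n : ℕ, (j ^ n) (algebraMap R M x) = algebraMap κ M (ζ ^ n) * algebraMap R M x := by
    intro n
    induction n with
    | zero => rw [pow_zero, pow_zero, map_one, one_mul]; rfl
    | succ n ih =>
      rw [pow_succ, AlgHom.mul_apply, hj, map_mul, (j ^ n).commutes, ih, pow_succ, map_mul]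
      ring
  have hjm : (j ^ m) (algebraMap R M x) = algebraMap R M x := by
    rw [hjn, hζ, map_one, one_mul]
  have hR : ∀ t : R, (j ^ m) (algebraMap R M t) = algebraMap R M t := by
    intro t
    have ht : t ∈ IntermediateField.adjoin κ {x} := by rw [h.rat.gen]; trivial
    induction ht using IntermediateField.adjoin_induction with
    | mem y hy =>
      rw [Set.mem_singleton_iff] at hy
      subst hy
      exact hjm
    | algebraMap c =>
      rw [← IsScalarTower.algebraMap_apply]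
      exact (j ^ m).commutes c
    | add a b _ _ ha hb => rw [map_add, map_add, ha, hb]
    | inv a _ ha => rw [map_inv₀, map_inv₀, ha]
    | mul a b _ _ ha hb => rw [map_mul, map_mul, ha, hb]
  let jR : M →ₐ[R] M := { (j ^ m : M →ₐ[κ] M) with commutes' := hR }
  have hbij : Function.Bijective jR := Algebra.IsAlgebraic.algHom_bijective jR
  have hsurj : Function.Surjective j := by
    intro z
    obtain ⟨w, hw⟩ := hbij.2 z
    refine ⟨(j ^ (m - 1)) w, ?_⟩
    have h1 : (j ^ m) w = z := hw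
    rw [← h1, ← AlgHom.mul_apply, ← pow_succ', Nat.sub_add_cancel hm]
  exact ⟨AlgEquiv.ofBijective j ⟨j.injective, hsurj⟩, hj⟩

/-- a rotation which fixes a given place with `x = 0` or `x = ∞` -/
theorem exists_rotW {m : ℕ} (h : Cov ℓ κ R M x B Y) (hm : 0 < m)
    (hB : ∀ ζ : κ, ζ ^ m = 1 → ∀ e ∈ B, ζ * e ∈ B) {ζ : κ} (hζ : ζ ^ m = 1) {W : Place κ M}
    (hW : W.ord (algebraMap R M x) ≠ 0) :
    ∃ γ : M ≃ₐ[κ] M, γ (algebraMap R M x) = algebraMap κ M ζ * algebraMap R M x ∧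
      Fixes W γ := by
  have i0 := h.gal
  obtain ⟨α, hα⟩ := exists_rot h hm hB hζ
  have hζ0 : ζ ≠ 0 := by
    rintro rfl
    rw [zero_pow hm.ne'] at hζ
    exact zero_ne_one hζ
  have hx0 : algebraMap R M x ≠ 0 := by
    intro h1
    rw [h1, W.ord_zero] at hW
    exact hW rfl
  have hord : (pl W α).ord (algebraMap R M x) = W.ord (algebraMap R M x) := by
    rw [pl_ord, hα, W.ord_mul (by rw [_root_.map_ne_zero]; exact hζ0) hx0, W.ord_const hζ0,
      zero_add]
  have htr : W.O.comap (algebraMap R M) = (pl W α).O.comap (algebraMap R M) := by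
    rcases lt_or_gt_of_ne hW with h1 | h1
    · refine trace_eq (RatF_inv h.rat) 0 ?_ ?_
      · rw [map_zero, sub_zero, map_inv₀, W.ord_inv]
        omega
      · rw [map_zero, sub_zero, map_inv₀, (pl W α).ord_inv, hord]
        omega
    · refine trace_eq h.rat 0 ?_ ?_
      · rw [map_zero, sub_zero]
        exact h1
      · rw [map_zero, sub_zero, hord]
        exact h1
  obtain ⟨g, hg⟩ := a_conj R M W.O (pl W α).O htr
  have hgW : ∀ z, (pl W α).ord z = W.ord (g z) := by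
    have h1 : pl W α = pl W g := by
      apply Place.ext_O
      ext z
      rw [hg, Place.mem_O, Place.mem_O]
      unfold Place.Reg
      rw [pl_ord, map_eq_zero_iff g g.injective]
    intro z
    rw [h1]; rfl
  let f : M ≃+* M := (g : M ≃+* M).symm.trans (α : M ≃+* M)
  have hf : ∀ z, f (g z) = α z := by
    intro z
    show α (g.symm (g z)) = α z
    rw [g.symm_apply_apply]
  have hfg : ∀ z, f z = α (g.symm z) := fun z => rfl
  refine ⟨AlgEquiv.ofRingEquiv (f := f) (fun c => ?_), ?_, fun z => ?_⟩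
  · have h1 := hf (algebraMap κ M c)
    rw [aut_const, α.commutes] at h1
    exact h1
  · show f _ = _
    have h1 := hf (algebraMap R M x)
    rw [g.commutes, hα] at h1
    exact h1
  · show W.ord (f z) = W.ord z
    rw [hfg, ← pl_ord, hgW, g.apply_symm_apply]

end

section

variable {k κ R M : Type} [Field k] [CharZero k]
    [Field κ] [Algebra k κ] [IsAlgClosure k κ]
    [Field R] [Field M] [Algebra κ R] [Algebra R M] [Algebra κ M] [IsScalarTower κ R M]
    {ℓ : ℕ} [Fact ℓ.Prime] {x : R} {B : Finset κ} {Y : M} {m : ℕ}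

/-- **sections at the points with `x = 0` or `x = ∞` have symmetries** -/
theorem cuspX (hC : Cov ℓ κ R M x B Y) (hm : 0 < m) (h0 : (0 : κ) ∉ B)
    (hB : ∀ ζ : κ, ζ ^ m = 1 → ∀ e ∈ B, ζ * e ∈ B)
    {s : (κ ≃ₐ[k] κ) →* RingAut M} (hs : SecR k κ R M x s) {U : Subgroup (κ ≃ₐ[k] κ)}
    (hU : U.index ≠ 0) {W : Place κ M} (hW : W.ord (algebraMap R M x) ≠ 0)
    (hfix : ∀ σ ∈ U, Fixes W (s σ)) {ζ : κ} (hζ : ζ ^ m = 1) :
    ∃ γ : M ≃ₐ[κ] M, γ (algebraMap R M x) = algebraMap κ M ζ * algebraMap R M x ∧ Fixes W γ ∧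
      ∃ U' : Subgroup (κ ≃ₐ[k] κ), U'.index ≠ 0 ∧ Zp m (algebraMap R M x) s U' γ := by
  classical
  haveI : IsAlgClosed κ := IsAlgClosure.isAlgClosed k
  haveI : CharZero κ := charZero_of_injective_algebraMap (algebraMap k κ).injective
  obtain ⟨γ, hγx, hγW⟩ := exists_rotW hC hm hB hζ hW
  refine ⟨γ, hγx, hγW, U ⊓ MulAction.stabilizer (κ ≃ₐ[k] κ) ζ, ?_, ⟨ζ, hζ, hγx⟩, ?_⟩
  · refine Subgroup.index_inf_ne_zero hU ?_
    rw [MulAction.index_stabilizer]
    have hfin : (MulAction.orbit (κ ≃ₐ[k] κ) ζ).Finite := by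
      refine ((X ^ m - C (1 : κ)).roots.toFinset.finite_toSet).subset ?_
      rintro _ ⟨σ, rfl⟩
      show σ ζ ∈ _
      rw [Finset.mem_coe, Multiset.mem_toFinset, mem_roots (X_pow_sub_C_ne_zero hm 1)]
      simp only [IsRoot.def, eval_sub, eval_pow, eval_X, eval_C]
      rw [← map_pow, hζ, map_one, sub_self]
    haveI : Finite (MulAction.orbit (κ ≃ₐ[k] κ) ζ) := hfin.to_subtype
    haveI : Nonempty (MulAction.orbit (κ ≃ₐ[k] κ) ζ) := ⟨⟨ζ, MulAction.mem_orbit_self ζ⟩⟩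
    rw [Set.ncard]
    exact (Nat.card_pos (α := MulAction.orbit (κ ≃ₐ[k] κ) ζ)).ne'
  · rintro σ ⟨hσU, hσζ⟩ z
    have hσζ' : σ ζ = ζ := hσζ
    obtain ⟨η, hη⟩ := conjS (s := s) hs.const γ σ
    have hηx : η (algebraMap R M x) = γ (algebraMap R M x) := by
      apply (s σ).injective
      rw [hη, hs.fixx, hγx, map_mul, hs.const, hs.fixx, hσζ']
    have hηW : Fixes W η := by
      intro z
      rw [← hfix σ hσU (η z), hη, hγW, hfix σ hσU]
    have h1 : η = γ := stabX hC h0 hW hηW hγW hηx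
    rw [← hη, h1]

/-- symmetries which agree on `x` are equal -/
theorem Zp.unique {j : ℕ} (hR : Rig k κ R M x Y) (hC : Cov ℓ κ R M x B Y) (h0 : (0 : κ) ∉ B)
    (hinf : ¬ FiniteDimensional R M)
    (hB : ∀ ζ : κ, ζ ^ (ℓ ^ j) = 1 → ∀ e ∈ B, ζ * e ∈ B)
    {s : (κ ≃ₐ[k] κ) →* RingAut M} (hs : SecR k κ R M x s) {U U' U'' : Subgroup (κ ≃ₐ[k] κ)}
    (hU : U.index ≠ 0) (hU' : U'.index ≠ 0) (hU'' : U''.index ≠ 0) {γ γ' γ'' : M ≃ₐ[κ] M}
    (h'' : Zp (ℓ ^ j) (algebraMap R M x) s U'' γ'')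
    (h1 : γ'' (algebraMap R M x) ≠ algebraMap R M x)
    (h : Zp (ℓ ^ j) (algebraMap R M x) s U γ) (h' : Zp (ℓ ^ j) (algebraMap R M x) s U' γ')
    (hx : γ (algebraMap R M x) = γ' (algebraMap R M x)) : γ = γ' := by
  haveI : IsAlgClosed κ := IsAlgClosure.isAlgClosed k
  haveI : CharZero κ := charZero_of_injective_algebraMap (algebraMap k κ).injective
  have hne : γ'' ≠ 1 := by
    rintro rfl
    exact h1 rfl
  obtain ⟨W, hW, -, hall, -⟩ := afsX hR hC hinf hB hs hU'' h'' hne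
  have hx0 : algebraMap R M x ≠ 0 := by
    intro h3
    rw [h3, map_zero] at h1
    exact h1 rfl
  have hWx : W.ord (algebraMap R M x) ≠ 0 := by
    intro h3
    obtain ⟨ζ, hζ, hζx⟩ := h''.rot
    have h4 := eig_one hC hW hx0 h3 hζx
    rw [h4, map_one, one_mul] at hζx
    exact h1 hζx
  exact stabX hC h0 hWx (hall U γ hU h) (hall U' γ' hU' h') hx

end

end Pool.Agent.R925.X
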