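import Pool.Agent.R925.X.Geo
import Pool.Agent.R925.Q.Fin

/-! Sections which commute with automorphisms that move `x`: statements for arbitrary extensions `N`
of `M`. -/

set_option autoImplicit false
set_option linter.all false

open Polynomial FF

namespace Pool.Agent.R925.X

open Pool.Agent.Y157.PS Pool.Agent.Y31.PS Pool.Agent.R925.Q

/-- `γ` is an automorphism of `M` over the constants and `x ^ m`, which commutes with `S σ` for
`σ ∈ H` -/
def Sy2 (k : Type) {F Ω : Type} [Field k] [Field F] [Field Ω] [Algebra k Ω] [Algebra F Ω]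
    (m : ℕ) (x : F) (M N : IntermediateField F Ω) {G : Type} [Group G] (S : G →* (N ≃ₐ[F] N))
    (H : Subgroup G) (γ : M ≃+* M) : Prop :=
  (∀ z : M, IsAlgebraic k (z : Ω) → γ z = z) ∧
    γ (algebraMap F M (x ^ m)) = algebraMap F M (x ^ m) ∧
    ∀ σ ∈ H, ∀ (z w : M) (a b : N), (a : Ω) = z → (b : Ω) = (γ z : Ω) → (S σ a : Ω) = w →
      (S σ b : Ω) = (γ w : Ω)

/-- exactly one point -/
def FB2 (k : Type) {F Ω : Type} [Field k] [Field F] [Field Ω] [Algebra k F] [Algebra F Ω]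
    (f : k[X]) (x : F) (M N : IntermediateField F Ω) {G : Type} [Group G]
    (S : G →* (N ≃ₐ[F] N)) : Prop :=
  ∃ W : ValuationSubring N,
    (((∀ c : k, algebraMap F N (algebraMap k F c) ∈ W) ∧
      (algebraMap F N x ∈ W.nonunits ∨ algebraMap F N x⁻¹ ∈ W.nonunits) ∧
      (∀ z : F, algebraMap F N z ∈ W →
        ∃ c : k, algebraMap F N (z - algebraMap k F c) ∈ W.nonunits)) ∧
      ∀ σ, ∀ z : N, (z : Ω) ∈ M → (S σ z ∈ W ↔ z ∈ W)) ∧
    ∀ W' : ValuationSubring N, (∀ c : k, algebraMap F N (algebraMap k F c) ∈ W') →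
      (algebraMap F N x ∈ W'.nonunits ∨ algebraMap F N x⁻¹ ∈ W'.nonunits ∨
        algebraMap F N (aeval x f) ∈ W'.nonunits) →
      (∀ σ, ∀ z : N, (z : Ω) ∈ M → (S σ z ∈ W' ↔ z ∈ W')) →
      ∀ z : N, (z : Ω) ∈ M → (z ∈ W' ↔ z ∈ W)

section main

variable {k F Ω : Type} [Field k] [CharZero k] [Field F] [Field Ω] [Algebra k F] [Algebra F Ω]
    [Algebra k Ω] [IsScalarTower k F Ω] [IsAlgClosed Ω] [Algebra.IsAlgebraic F Ω]

theorem finX {ℓ : ℕ} [Fact ℓ.Prime] {j : ℕ} (hj : 1 ≤ j) (g : k[X])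
    (hs : (expand k (ℓ ^ j) g).Separable) (h3 : 3 ≤ (expand k (ℓ ^ j) g).natDegree)
    (hRR : RR ℓ k (algebraicClosure k Ω) (expand k (ℓ ^ j) g)) (d : k) (hd : d ≠ 0)
    (x y : F) (hx : Transcendental k x)
    (hxy : algebraMap k F d * y ^ ℓ = aeval x (expand k (ℓ ^ j) g))
    (hF : IntermediateField.adjoin k {x, y} = (⊤ : IntermediateField k F))
    (N : IntermediateField F Ω) (hN : geomPro ℓ k F Ω ≤ N)
    (S : (algebraicClosure k Ω ≃ₐ[k] algebraicClosure k Ω) →* (N ≃ₐ[F] N)) (hcont : Continuous S)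
    (hcompat : ∀ σ (c : algebraicClosure k Ω) (z : N), (z : Ω) = (c : Ω) →
      (S σ z : Ω) = (σ c : Ω)) :
    (∀ H : Subgroup (algebraicClosure k Ω ≃ₐ[k] algebraicClosure k Ω), H.index ≠ 0 → ∀ γ,
      γ (algebraMap F _ x) ≠ algebraMap F _ x →
      Sy2 k (ℓ ^ j) x (geomPro ℓ k F Ω) N S H γ →
      FB2 k (expand k (ℓ ^ j) g) x (geomPro ℓ k F Ω) N S) ∧
    (∀ (H : Subgroup (algebraicClosure k Ω ≃ₐ[k] algebraicClosure k Ω)), H.index ≠ 0 →
      ∀ W : ValuationSubring N, (∀ c : k, algebraMap F N (algebraMap k F c) ∈ W) →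
      (algebraMap F N x ∈ W.nonunits ∨ algebraMap F N x⁻¹ ∈ W.nonunits) →
      (∀ σ ∈ H, ∀ z : N, (z : Ω) ∈ geomPro ℓ k F Ω → (S σ z ∈ W ↔ z ∈ W)) →
      ∀ ζ : geomPro ℓ k F Ω, ζ ^ (ℓ ^ j) = 1 →
      ∃ γ, γ (algebraMap F _ x) = ζ * algebraMap F _ x ∧
      ∃ H' : Subgroup (algebraicClosure k Ω ≃ₐ[k] algebraicClosure k Ω), H'.index ≠ 0 ∧
        Sy2 k (ℓ ^ j) x (geomPro ℓ k F Ω) N S H' γ) ∧
    (∀ (H H' H'' : Subgroup (algebraicClosure k Ω ≃ₐ[k] algebraicClosure k Ω)), H.index ≠ 0 →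
      H'.index ≠ 0 → H''.index ≠ 0 → ∀ γ γ' γ'',
      γ'' (algebraMap F _ x) ≠ algebraMap F _ x →
      Sy2 k (ℓ ^ j) x (geomPro ℓ k F Ω) N S H γ →
      Sy2 k (ℓ ^ j) x (geomPro ℓ k F Ω) N S H' γ' →
      Sy2 k (ℓ ^ j) x (geomPro ℓ k F Ω) N S H'' γ'' →
      γ (algebraMap F _ x) = γ' (algebraMap F _ x) → γ = γ') := by
  classical
  have hac : IsAlgClosure k (algebraicClosure k Ω) := inferInstance
  have : Normal k (algebraicClosure k Ω) := IsAlgClosure.normal k _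
  have hGal : IsGalois k (algebraicClosure k Ω) := ⟨⟩
  have hkb : IsAlgClosed (algebraicClosure k Ω) := hac.1
  have hch : CharZero (algebraicClosure k Ω) :=
    charZero_of_injective_algebraMap (algebraMap k (algebraicClosure k Ω)).injective
  have hdvd : ℓ ∣ (expand k (ℓ ^ j) g).natDegree := by
    rw [natDegree_expand]
    exact Dvd.dvd.mul_left (dvd_pow_self ℓ (by omega)) _
  have hm0 : 0 < ℓ ^ j := pow_pos (Fact.out : ℓ.Prime).pos j
  have hm2 : 2 ≤ ℓ ^ j := by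
    calc 2 ≤ ℓ := (Fact.out : ℓ.Prime).two_le
      _ = ℓ ^ 1 := (pow_one ℓ).symm
      _ ≤ ℓ ^ j := Nat.pow_le_pow_right (Fact.out : ℓ.Prime).pos hj
  have halg := alg_of_eqn (Fact.out : ℓ.Prime).pos _ d hd x y hxy hF
  obtain ⟨T, hTc, hT⟩ := a_ind2 ℓ k F Ω x hx halg N hN _ S hcont
  have hTcompat : ∀ σ (c : algebraicClosure k Ω) (z : geomPro ℓ k F Ω), (z : Ω) = (c : Ω) →
      (T σ z : Ω) = (σ c : Ω) := by
    intro σ c z hz
    rw [hT σ ⟨(z : Ω), hN z.2⟩ z rfl]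
    exact hcompat σ c _ hz
  obtain ⟨-, -, b3⟩ := geoK _ hs hdvd h3 hRR d hd x y hx hxy hF T hTcompat
  obtain ⟨c1, c2, c3⟩ := geoX hj g hs h3 hRR d hd x y hx hxy hF T hTcompat
  obtain ⟨f, hf⟩ : ∃ f : k[X], f = expand k (ℓ ^ j) g := ⟨_, rfl⟩
  rw [← hf] at hs h3 hRR hxy hdvd b3 ⊢
  -- symmetries
  have hcom : ∀ H γ, Sy2 k (ℓ ^ j) x (geomPro ℓ k F Ω) N S H γ →
      Co2 (cst ℓ k F Ω) (ℓ ^ j) x T H γ := by
    rintro H γ ⟨h1, h2, h3⟩
    refine ⟨fun c => h1 _ ?_, ?_, fun σ hσ z => ?_⟩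
    · exact (mem_algebraicClosure_iff.1 c.2)
    · rw [← map_pow, ← map_pow, h2]
    · apply Subtype.ext
      have h4 := h3 σ hσ z (T σ z) ⟨(z : Ω), hN z.2⟩ ⟨(γ z : Ω), hN (γ z).2⟩ rfl rfl
        (hT σ ⟨(z : Ω), hN z.2⟩ z rfl).symm
      rw [← h4]
      exact (hT σ ⟨(γ z : Ω), hN (γ z).2⟩ (γ z) rfl).symm
  have hcom' : ∀ H γ, Co2 (cst ℓ k F Ω) (ℓ ^ j) x T H γ →
      Sy2 k (ℓ ^ j) x (geomPro ℓ k F Ω) N S H γ := by
    rintro H γ ⟨h1, h2, h3⟩
    refine ⟨fun z hz => ?_, ?_, fun σ hσ z w a b ha hb hw => ?_⟩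
    · have h4 := h1 ⟨(z : Ω), mem_algebraicClosure_iff.2 hz⟩
      exact h4
    · rw [map_pow, map_pow, h2]
    · have h5 : w = T σ z := Subtype.ext ((hw.symm.trans (hT σ a z ha.symm).symm))
      rw [h5, h3 σ hσ, hT σ b (γ z) hb.symm]
  let ι : geomPro ℓ k F Ω →+* N := ((IntermediateField.inclusion hN :
        geomPro ℓ k F Ω →ₐ[F] N) : geomPro ℓ k F Ω →+* N)
  have hιc : ∀ z : F, ι (algebraMap F (geomPro ℓ k F Ω) z) = algebraMap F N z := fun z => rfl
  have hf0 : f ≠ 0 := by rintro rfl; simp at h3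
  have hx0F : x ≠ 0 := by
    rintro rfl
    exact hx isAlgebraic_zero
  have hfx0 : aeval x f ≠ 0 := by
    intro h
    exact hx ⟨f, hf0, h⟩
  -- the roots of `f`
  have hcstk : ∀ c : k, cst ℓ k F Ω (algebraMap k _ c) =
      algebraMap F (geomPro ℓ k F Ω) (algebraMap k F c) := by
    intro c
    apply Subtype.ext
    change algebraMap k Ω c = algebraMap F Ω (algebraMap k F c)
    exact IsScalarTower.algebraMap_apply k F Ω c
  have hcmem : ∀ W : ValuationSubring (geomPro ℓ k F Ω),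
      (∀ c : k, algebraMap F (geomPro ℓ k F Ω) (algebraMap k F c) ∈ W) →
      ∀ c, cst ℓ k F Ω c ∈ W := fun W hW c => const_mem_N _ W hW c _ rfl
  have hne : ∀ e : algebraicClosure k Ω,
      algebraMap F (geomPro ℓ k F Ω) x - cst ℓ k F Ω e ≠ 0 := by
    intro e h
    have h4 : algebraMap F Ω x = (e : Ω) := congrArg (algebraMap (geomPro ℓ k F Ω) Ω)
      (sub_eq_zero.1 h)
    have h5 : IsAlgebraic k (algebraMap F Ω x) := by rw [h4]; exact mem_algebraicClosure_iff.1 e.2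
    exact hx ((isAlgebraic_algebraMap_iff (algebraMap F Ω).injective).1 h5)
  -- valuation rings above a branch point
  have hbr : ∀ W : ValuationSubring (geomPro ℓ k F Ω),
      (∀ c : k, algebraMap F (geomPro ℓ k F Ω) (algebraMap k F c) ∈ W) →
      algebraMap F (geomPro ℓ k F Ω) (aeval x f) ∈ W.nonunits →
      ∃ e : algebraicClosure k Ω, aeval e f = 0 ∧
        algebraMap F (geomPro ℓ k F Ω) x - cst ℓ k F Ω e ∈ W.nonunits := by
    intro W hW hfW
    have hcsthom : ∃ g : algebraicClosure k Ω →+* geomPro ℓ k F Ω, ∀ c, g c = cst ℓ k F Ω c := by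
      exact ⟨{ toFun := cst ℓ k F Ω
               map_one' := rfl
               map_mul' := fun _ _ => rfl
               map_zero' := rfl
               map_add' := fun _ _ => rfl }, fun c => rfl⟩
    obtain ⟨g, hg⟩ := hcsthom
    set P := f.map (algebraMap k (algebraicClosure k Ω)) with hP
    have hP0 : P ≠ 0 := (Polynomial.map_ne_zero_iff (algebraMap k _).injective).2 hf0
    have hsp := (IsAlgClosed.splits P).eq_prod_roots
    have h5 : algebraMap F (geomPro ℓ k F Ω) (aeval x f) =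
        g P.leadingCoeff * (P.roots.map fun e => algebraMap F (geomPro ℓ k F Ω) x - g e).prod := by
      have h6 : algebraMap F (geomPro ℓ k F Ω) (aeval x f) =
          P.eval₂ g (algebraMap F (geomPro ℓ k F Ω) x) := by
        rw [hP, eval₂_map, aeval_def, hom_eval₂]
        congr 1
        ext c
        change _ = ((g (algebraMap k _ c) : geomPro ℓ k F Ω) : Ω)
        rw [hg, hcstk]
        rfl
      rw [h6]
      conv_lhs => rw [hsp]
      rw [eval₂_mul, eval₂_C, ← coe_eval₂RingHom, map_multiset_prod, Multiset.map_map]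
      congr 2
      refine Multiset.map_congr rfl fun a _ => ?_
      simp
    by_contra hcon
    push Not at hcon
    have h7 : ∀ e ∈ P.roots, (algebraMap F (geomPro ℓ k F Ω) x - g e)⁻¹ ∈ W := by
      intro e he
      apply inv_mem_of_not_nonunit
      rw [hg]
      refine hcon e ?_
      rw [mem_roots hP0, IsRoot.def, hP, eval_map] at he
      exact he
    have h8 : (algebraMap F (geomPro ℓ k F Ω) (aeval x f))⁻¹ ∈ W := by
      rw [h5, mul_inv, ← map_inv₀, hg]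
      refine mul_mem (hcmem W hW _) ?_
      rw [← Multiset.prod_map_inv']
      refine multiset_prod_mem _ fun z hz => ?_
      obtain ⟨w, hw, rfl⟩ := Multiset.mem_map.1 hz
      obtain ⟨e, he, rfl⟩ := Multiset.mem_map.1 hw
      exact h7 e he
    rcases (nonunits_iff.1 hfW).2 with h9 | h9
    · exact hfx0 ((_root_.map_eq_zero _).1 h9)
    · exact h9 h8
  have hntop : ∀ (W : ValuationSubring (geomPro ℓ k F Ω)) (z : geomPro ℓ k F Ω), z ≠ 0 →
      z ∈ W.nonunits → W ≠ ⊤ := by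
    intro W z hz hzW h0
    rcases (nonunits_iff.1 hzW).2 with h9 | h9
    · exact hz h9
    · rw [h0] at h9
      exact h9 trivial
  have hrat : ∀ c : algebraicClosure k Ω, (∀ σ : algebraicClosure k Ω ≃ₐ[k]
      algebraicClosure k Ω, σ c = c) → ∃ c' : k, algebraMap k (algebraicClosure k Ω) c' = c := by
    intro c hc
    exact IntermediateField.mem_bot.1 ((InfiniteGalois.mem_bot_iff_fixed c).2 hc)
  have hxM0 : algebraMap F (geomPro ℓ k F Ω) x ≠ 0 := (_root_.map_ne_zero _).2 hx0F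
  -- a nontrivial root of unity
  obtain ⟨ζ₀, hζ₀, hζ₀1⟩ : ∃ ζ : algebraicClosure k Ω, ζ ^ (ℓ ^ j) = 1 ∧ ζ ≠ 1 := by
    haveI : NeZero (ℓ ^ j) := ⟨hm0.ne'⟩
    obtain ⟨ζ, hζ⟩ := HasEnoughRootsOfUnity.exists_primitiveRoot (algebraicClosure k Ω) (ℓ ^ j)
    exact ⟨ζ, hζ.pow_eq_one, hζ.ne_one hm2⟩
  have hcst1 : ∀ ζ : algebraicClosure k Ω, cst ℓ k F Ω ζ = 1 → ζ = 1 := by
    intro ζ h
    apply Subtype.ext
    exact congrArg (fun z : geomPro ℓ k F Ω => (z : Ω)) h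
  refine ⟨?_, ?_, ?_⟩
  · intro H hH γ hγx hSy
    obtain ⟨W₀, a1, a2, a3, a4, a5⟩ := c1 H hH γ hγx (hcom H γ hSy)
    have hk1 : ∀ c : k, algebraMap F (geomPro ℓ k F Ω) (algebraMap k F c) ∈ W₀ := by
      intro c
      rw [← hcstk]
      exact a1 _
    have hres : ∀ z : F, algebraMap F (geomPro ℓ k F Ω) z ∈ W₀ →
        ∃ c : k, algebraMap F (geomPro ℓ k F Ω) (z - algebraMap k F c) ∈ W₀.nonunits := by
      intro z hz
      obtain ⟨c, hc⟩ := a2 _ hz
      obtain ⟨c', rfl⟩ := hrat c fun σ => res_fixed _ W₀ hk1 σ (T σ) (a4 σ)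
        (fun c z hz => hTcompat σ c z hz) z c _ hc rfl
      refine ⟨c', ?_⟩
      rw [map_sub, ← hcstk]
      exact hc
    obtain ⟨W, hW1, hW2⟩ := lift_thm (geomPro ℓ k F Ω) N hN S T
      (fun σ => True) hT
      (fun L W => (∀ c : k, algebraMap F L (algebraMap k F c) ∈ W) ∧
        (algebraMap F L x ∈ W.nonunits ∨ algebraMap F L x⁻¹ ∈ W.nonunits) ∧
        (∀ z : F, algebraMap F L z ∈ W →
          ∃ c : k, algebraMap F L (z - algebraMap k F c) ∈ W.nonunits))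
      (fun L W => (∀ c : k, algebraMap F L (algebraMap k F c) ∈ W) ∧
        (algebraMap F L x ∈ W.nonunits ∨ algebraMap F L x⁻¹ ∈ W.nonunits ∨
          algebraMap F L (aeval x f) ∈ W.nonunits))
      (by
        rintro W ⟨b1, b2, b3⟩
        refine ⟨b1, ?_, fun z hz => ?_⟩
        · rcases b2 with b2 | b2
          · exact Or.inl ((non_incl ι W _).1 b2)
          · exact Or.inr ((non_incl ι W _).1 b2)
        · obtain ⟨c, hc⟩ := b3 z hz
          exact ⟨c, (non_incl ι W _).1 hc⟩)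
      (by
        rintro W ⟨b1, b2⟩
        refine ⟨b1, ?_⟩
        rcases b2 with b2 | b2 | b2
        · exact Or.inl ((non_incl ι W _).2 b2)
        · exact Or.inr (Or.inl ((non_incl ι W _).2 b2))
        · exact Or.inr (Or.inr ((non_incl ι W _).2 b2)))
      ⟨W₀, ⟨⟨hk1, by rw [map_inv₀]; exact a3, hres⟩, fun σ _ z => a4 σ z⟩, by
        rintro W' ⟨b1, b2⟩ b4
        have hcase : (algebraMap F (geomPro ℓ k F Ω) x ∈ W'.nonunits ∨
            (algebraMap F (geomPro ℓ k F Ω) x)⁻¹ ∈ W'.nonunits) ∨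
            algebraMap F (geomPro ℓ k F Ω) (aeval x f) ∈ W'.nonunits := by
          rcases b2 with b2 | b2 | b2
          · exact Or.inl (Or.inl b2)
          · rw [map_inv₀] at b2
            exact Or.inl (Or.inr b2)
          · exact Or.inr b2
        rcases hcase with b2 | b2
        · obtain ⟨γ', hγx', hγW, U', hU', hγC⟩ := c3 ⊤
            (by rw [Subgroup.index_top]; exact one_ne_zero)
            W' (hcmem W' b1) b2 (fun σ _ z => b4 σ trivial z) ζ₀ hζ₀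
          have htop : W' ≠ ⊤ := by
            rcases b2 with b2 | b2
            · exact hntop W' _ hxM0 b2
            · exact hntop W' _ (inv_ne_zero hxM0) b2
          refine a5 W' (hcmem W' b1) htop U' γ' hU' ?_ hγC hγW
          rintro rfl
          have h5 : algebraMap F (geomPro ℓ k F Ω) x =
              cst ℓ k F Ω ζ₀ * algebraMap F (geomPro ℓ k F Ω) x := hγx'
          apply hζ₀1
          apply hcst1
          exact (mul_eq_right₀ hxM0).1 h5.symm
        · obtain ⟨e₁, he₁, b5⟩ := hbr W' b1 b2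
          obtain ⟨γ', hγ1, hγW, U', hU', hγC⟩ := b3 ⊤
            (by rw [Subgroup.index_top]; exact one_ne_zero)
            W' (hcmem W' b1) ⟨e₁, he₁, b5⟩ (fun σ _ z => b4 σ trivial z)
          exact a5 W' (hcmem W' b1) (hntop W' _ (hne e₁) b5) U' γ' hU' hγ1
            ⟨hγC.con, by rw [hγC.fix], hγC.com⟩ hγW⟩
    exact ⟨W, ⟨hW1.1, fun σ z hz => hW1.2 σ trivial z hz⟩, fun W' b1 b2 b3 =>
      hW2 W' ⟨b1, b2⟩ (fun σ _ z hz => b3 σ z hz)⟩
  · intro H hH W h1 h2 h4 ζ hζ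
    have hst : ∀ σ ∈ H, ∀ z, T σ z ∈ W.comap ι ↔ z ∈ W.comap ι := by
      intro σ hσ z
      have h5 := h4 σ hσ (ι z) z.2
      have h6 : ι (T σ z) = S σ (ι z) := Subtype.ext (hT σ (ι z) z rfl)
      rw [ValuationSubring.mem_comap, ValuationSubring.mem_comap, h6]
      exact h5
    have hk1 : ∀ c : k, algebraMap F (geomPro ℓ k F Ω) (algebraMap k F c) ∈ W.comap ι := h1
    have hx1 : algebraMap F (geomPro ℓ k F Ω) x ∈ (W.comap ι).nonunits ∨
        (algebraMap F (geomPro ℓ k F Ω) x)⁻¹ ∈ (W.comap ι).nonunits := by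
      rcases h2 with h2 | h2
      · exact Or.inl ((non_incl ι W _).2 h2)
      · refine Or.inr ((non_incl ι W _).2 ?_)
        rw [map_inv₀, hιc, ← map_inv₀]
        exact h2
    -- `ζ` is a constant
    have hζa : IsAlgebraic k ((ζ : geomPro ℓ k F Ω) : Ω) := by
      refine ⟨X ^ (ℓ ^ j) - 1, ?_, ?_⟩
      · exact (monic_X_pow_sub_C 1 hm0.ne').ne_zero
      · have h5 : ((ζ : geomPro ℓ k F Ω) : Ω) ^ (ℓ ^ j) = 1 := by
          have h6 := congrArg (fun z : geomPro ℓ k F Ω => (z : Ω)) hζ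
          simpa using h6
        rw [map_sub, map_pow, aeval_X, map_one, h5, sub_self]
    let ζ' : algebraicClosure k Ω := ⟨(ζ : Ω), mem_algebraicClosure_iff.2 hζa⟩
    have hζ' : cst ℓ k F Ω ζ' = ζ := Subtype.ext rfl
    obtain ⟨γ, hγx, -, U', hU', hγ⟩ := c3 H hH (W.comap ι) (hcmem _ hk1) hx1 hst ζ' (by
      apply Subtype.ext
      have h6 := congrArg (fun z : geomPro ℓ k F Ω => (z : Ω)) hζ
      simpa using h6)
    rw [hζ'] at hγx
    exact ⟨γ, hγx, U', hU', hcom' U' γ hγ⟩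
  · intro H H' H'' hH hH' hH'' γ γ' γ'' h1 hγ hγ' hγ'' hxx
    exact c2 H H' H'' hH hH' hH'' γ γ' γ'' h1 (hcom H γ hγ) (hcom H' γ' hγ') (hcom H'' γ'' hγ'')
      hxx

end main

end Pool.Agent.R925.X
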