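import Pool.Agent.R925.X.Lev

/-! An automorphism of order `ℓ` of `M` over the constants which maps `R` to itself fixes a place. -/

set_option autoImplicit false
set_option linter.all false

open Polynomial FF

namespace Pool.Agent.R925.X

open Pool.Agent.Y157.PS Pool.Agent.Y31.PS

section

variable {ℓ : ℕ} [hℓ : Fact ℓ.Prime] {κ R M : Type} [Field κ] [IsAlgClosed κ] [CharZero κ]
  [Field R] [Field M] [Algebra κ R] [Algebra R M] [Algebra κ M] [IsScalarTower κ R M] {x : R}
  {B : Finset κ} {Y : M}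

/-- an automorphism of order `ℓ` fixes a place of a stable level -/
theorem fixes_slev (hT : S_T1) (hR : S_RES) (h : Cov ℓ κ R M x B Y) {γ : M ≃ₐ[κ] M}
    (hγ : γ ^ ℓ = 1) {N : IntermediateField R M} (hN : Lev ℓ N) (hst : ∀ z, γ z ∈ N ↔ z ∈ N)
    (hY : Y ∈ N) (hne : ∃ z ∈ N, γ z ≠ z) :
    ∃ w : Place κ N, Fixes w (restr γ N hst) := by
  have i0 := h.gal
  have i1 := hN.fin
  have i2 := hN.gal
  have i3 : IsFF κ N := h.rat.isFF
  set g : N ≃ₐ[κ] N := restr γ N hst with hg
  have hcoe : ∀ (n : ℕ) (z : N), (((g ^ n) z : N) : M) = (γ ^ n) (z : M) := restr_pow γ N hst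
  have hg1 : g ^ ℓ = 1 := by
    ext z
    rw [hcoe, hγ]
    rfl
  have hg2 : g ≠ 1 := by
    intro h1
    obtain ⟨z, hz, hne⟩ := hne
    apply hne
    have := hcoe 1 ⟨z, hz⟩
    rw [h1] at this
    exact this.symm
  by_contra hcon
  push Not at hcon
  have hfree : ∀ w : Place κ N, pl w g ≠ w := fun w hw => hcon w ((fixes_iff w g).mpr hw)
  -- eigenvector
  have : NeZero ℓ := ⟨hℓ.out.ne_zero⟩
  obtain ⟨ζ, hζ⟩ := HasEnoughRootsOfUnity.exists_primitiveRoot κ ℓ
  have hζ0 : ζ ≠ 0 := hζ.ne_zero hℓ.out.ne_zero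
  obtain ⟨z, hz0, hz⟩ := exists_eigen g hg1 hg2 (algebraMap κ N ζ)
    (by rw [← map_pow, hζ.pow_eq_one, map_one]) (g.commutes ζ)
  have hzi : ∀ i : ℕ, (g ^ i) z = algebraMap κ N (ζ ^ i) * z := by
    intro i
    induction i with
    | zero => simp
    | succ i ih =>
      rw [pow_succ', AlgEquiv.mul_apply, ih, map_mul, g.commutes, hz, pow_succ, map_mul]
      ring
  have hzo : ∀ (w : Place κ N) (i : ℕ), w.ord ((g ^ i) z) = w.ord z := by
    intro w i
    rw [hzi, w.ord_mul _ hz0, w.ord_const (pow_ne_zero _ hζ0), zero_add]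
    rw [_root_.map_ne_zero]
    exact pow_ne_zero _ hζ0
  obtain ⟨D, hD0, hD⟩ := orbit_div g hg1 hfree z hzo
  obtain ⟨z1, hz10, hz1⟩ := hT ℓ κ R N x h.rat hN.card (-D) (by
    have : (-D).sum (fun _ n => n) = -(D.sum fun _ n => n) := by
      rw [Finsupp.sum_neg_index (fun _ => rfl), Finsupp.sum, Finsupp.sum, Finset.sum_neg_distrib]
    rw [this, hD0]
    simp)
  set G : N := z * ∏ i ∈ Finset.range ℓ, (g ^ i) z1 with hG
  have hprod0 : ∏ i ∈ Finset.range ℓ, (g ^ i) z1 ≠ 0 :=
    Finset.prod_ne_zero_iff.mpr fun i _ => (_root_.map_ne_zero _).mpr hz10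
  have hG0 : G ≠ 0 := mul_ne_zero hz0 hprod0
  have hordG : ∀ w : Place κ N, (ℓ : ℤ) ∣ w.ord G := by
    intro w
    have h2 : w.ord (∏ i ∈ Finset.range ℓ, (g ^ i) z1) =
        ∑ i ∈ Finset.range ℓ, w.ord ((g ^ i) z1) := by
      have : ∀ n : ℕ, w.ord (∏ i ∈ Finset.range n, (g ^ i) z1) =
          ∑ i ∈ Finset.range n, w.ord ((g ^ i) z1) := by
        intro n
        induction n with
        | zero => simp [w.ord_one]
        | succ n ih =>
          rw [Finset.prod_range_succ, w.ord_mul, ih, Finset.sum_range_succ]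
          · exact Finset.prod_ne_zero_iff.mpr fun i _ => (_root_.map_ne_zero _).mpr hz10
          · exact (_root_.map_ne_zero _).mpr hz10
      exact this ℓ
    rw [hG, w.ord_mul hz0 hprod0, h2, ← hD w, ← Finset.sum_add_distrib]
    apply Finset.dvd_sum
    intro i _
    have h3 := hz1 (pl w (g ^ i))
    rw [pl_ord, Finsupp.neg_apply] at h3
    have h4 : D (pl w (g ^ i)) + w.ord ((g ^ i) z1) = w.ord ((g ^ i) z1) - -D (pl w (g ^ i)) := by
      ring
    rw [h4]
    exact h3
  -- the root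
  obtain ⟨u, hu⟩ := h.root (G : M) (by simpa using hG0) (by
    intro W
    obtain ⟨w, hw⟩ := (hR ℓ κ R M x B Y h N hN.fin hY).1 W
    rw [hw]
    exact hordG w)
  have hGM0 : (G : M) ≠ 0 := by simpa using hG0
  have hu0 : u ≠ 0 := by
    rintro rfl
    rw [zero_pow hℓ.out.ne_zero] at hu
    exact hGM0 hu.symm
  have hgG : g G = algebraMap κ N ζ * G := by
    rw [hG, map_mul, hz, prod_shift g hg1 z1 hz10]
    ring
  have hγG : γ (G : M) = algebraMap κ M ζ * (G : M) := by
    have h2 : ((g G : N) : M) = γ (G : M) := hcoe 1 G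
    rw [← h2, hgG]
    rfl
  have h5 : (γ u / u) ^ ℓ = algebraMap κ M ζ := by
    rw [div_pow, ← map_pow, hu, hγG, mul_div_cancel_right₀ _ hGM0]
  obtain ⟨d, hd, hdl⟩ := root_const hℓ.out.pos h5
  have hγu : γ u = algebraMap κ M d * u := by
    rw [← hd, div_mul_cancel₀ _ hu0]
  have hγn : ∀ n : ℕ, (γ ^ n) u = algebraMap κ M (d ^ n) * u := by
    intro n
    induction n with
    | zero => simp
    | succ n ih =>
      rw [pow_succ', AlgEquiv.mul_apply, ih, map_mul, γ.commutes, hγu, pow_succ, map_mul]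
      ring
  have h6 := hγn ℓ
  rw [hγ, hdl, AlgEquiv.one_apply] at h6
  have h7 : algebraMap κ M ζ = 1 := by
    have : (1 : M) * u = algebraMap κ M ζ * u := by rw [one_mul]; exact h6
    exact (mul_right_cancel₀ hu0 this).symm
  have h8 : ζ = 1 := (algebraMap κ M).injective (by rw [h7, map_one])
  exact hζ.ne_one hℓ.out.one_lt h8

omit [CharZero κ] [Algebra κ R] [IsScalarTower κ R M] [Field R] [Algebra R M] in
/-- elements which are fixed modulo the maximal ideal -/
theorem fix_pos {K : Type} [Field K] [Algebra κ K] {w : Place κ K} {g : K ≃ₐ[κ] K}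
    (hw : Fixes w g) {a : K} (ha : ∃ c : κ, a - algebraMap κ K c = 0 ∨
      0 < w.ord (a - algebraMap κ K c)) (hne : g a - a ≠ 0) : 0 < w.ord (g a - a) := by
  obtain ⟨c, hc⟩ := ha
  have h1 : g a - a = g (a - algebraMap κ K c) - (a - algebraMap κ K c) := by
    rw [map_sub, g.commutes]
    ring
  rcases hc with hc | hc
  · exfalso
    rw [h1, hc, map_zero, sub_zero] at hne
    exact hne rfl
  · have h0 : a - algebraMap κ K c ≠ 0 := by
      intro h0
      rw [h0, w.ord_zero] at hc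
      exact lt_irrefl _ hc
    have h2 := w.ord_sub (f := g (a - algebraMap κ K c)) (g := a - algebraMap κ K c)
      ((_root_.map_ne_zero g).mpr h0) h0 (by rw [← h1]; exact hne)
    rw [hw, min_self, ← h1] at h2
    omega

/-- **an automorphism of order `ℓ` which moves `x` fixes a place** -/
theorem exf2 (hT : S_T1) (hR : S_RES) (h : Cov ℓ κ R M x B Y) (γ : M ≃ₐ[κ] M)
    (hγ : γ ^ ℓ = 1) (hs : StR R γ) (hx : γ (algebraMap R M x) ≠ algebraMap R M x) :
    ∃ W : Place κ M, Fixes W γ := by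
  classical
  have i0 := h.gal
  have hlev : ∀ s : Finset M, ∃ N : IntermediateField R M, Lev ℓ N ∧ (∀ z, γ z ∈ N ↔ z ∈ N) ∧
      ∀ z ∈ insert Y s, z ∈ N := fun s =>
    exists_slev h.pow γ ℓ hℓ.out.pos hγ hs (insert Y s)
  choose N hN hst hmemN using hlev
  have hYN : ∀ s, Y ∈ N s := fun s => hmemN s Y (Finset.mem_insert_self _ _)
  have hxN : ∀ s, algebraMap R M x ∈ N s := fun s => (N s).algebraMap_mem x
  have hw : ∀ s, ∃ w : Place κ (N s), Fixes w (restr γ (N s) (hst s)) := fun s =>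
    fixes_slev hT hR h hγ (hN s) (hst s) (hYN s) ⟨_, hxN s, hx⟩
  choose w hw using hw
  -- the ultrafilter
  let U : Ultrafilter (Finset M) := Ultrafilter.of Filter.atTop
  have hU : (U : Filter (Finset M)) ≤ Filter.atTop := Ultrafilter.of_le _
  have hmem : ∀ z : M, ∀ᶠ s : Finset M in U, z ∈ N s := by
    intro z
    apply hU
    filter_upwards [Filter.eventually_ge_atTop {z}] with s hs
    exact hmemN s z (Finset.mem_insert_of_mem (hs (Finset.mem_singleton_self z)))
  let V : ValuationSubring M :=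
    { carrier := {z | ∀ᶠ s : Finset M in U, ∃ hz : z ∈ N s, (w s).Reg ⟨z, hz⟩}
      mul_mem' := by
        intro a b ha hb
        filter_upwards [ha, hb] with s ha hb
        obtain ⟨ha1, ha2⟩ := ha
        obtain ⟨hb1, hb2⟩ := hb
        exact ⟨mul_mem ha1 hb1, (w s).reg_mul ha2 hb2⟩
      one_mem' := Filter.Eventually.of_forall fun s => ⟨one_mem _, (w s).reg_one⟩
      add_mem' := by
        intro a b ha hb
        filter_upwards [ha, hb] with s ha hb
        obtain ⟨ha1, ha2⟩ := ha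
        obtain ⟨hb1, hb2⟩ := hb
        exact ⟨add_mem ha1 hb1, (w s).reg_add ha2 hb2⟩
      zero_mem' := Filter.Eventually.of_forall fun s => ⟨zero_mem _, (w s).reg_zero⟩
      neg_mem' := by
        intro a ha
        filter_upwards [ha] with s ha
        obtain ⟨ha1, ha2⟩ := ha
        exact ⟨neg_mem ha1, (w s).reg_neg ha2⟩
      mem_or_inv_mem' := by
        intro z
        have h1 : ∀ᶠ s : Finset M in U, (∃ hz : z ∈ N s, (w s).Reg ⟨z, hz⟩) ∨
            (∃ hz : z⁻¹ ∈ N s, (w s).Reg ⟨z⁻¹, hz⟩) := by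
          filter_upwards [hmem z] with s hz
          have h2 := (w s).O.mem_or_inv_mem ⟨z, hz⟩
          rcases h2 with h2 | h2
          · exact Or.inl ⟨hz, h2⟩
          · exact Or.inr ⟨inv_mem hz, h2⟩
        exact Ultrafilter.eventually_or.mp h1 }
  have hVmem : ∀ z : M, z ∈ V ↔ ∀ᶠ s : Finset M in U, ∃ hz : z ∈ N s, (w s).Reg ⟨z, hz⟩ :=
    fun z => Iff.rfl
  have hVc : ∀ c : κ, algebraMap κ M c ∈ V := by
    intro c
    rw [hVmem]
    refine Filter.Eventually.of_forall fun s => ?_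
    exact ⟨(algebraMap κ (N s) c).2, (w s).reg_const c⟩
  have hVtop : V ≠ ⊤ := by
    intro htop
    have h1 : algebraMap R M x ∈ V := by rw [htop]; trivial
    have h2 : (γ (algebraMap R M x) - algebraMap R M x)⁻¹ ∈ V := by rw [htop]; trivial
    rw [hVmem] at h1 h2
    obtain ⟨s, ⟨h3, h4⟩, h5, h6⟩ := (h1.and h2).exists
    have j1 := (hN s).fin
    have j2 : IsFF κ (N s) := h.rat.isFF
    set a : N s := ⟨algebraMap R M x, h3⟩ with ha
    have hd : (⟨(γ (algebraMap R M x) - algebraMap R M x)⁻¹, h5⟩ : N s) =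
        (restr γ (N s) (hst s) a - a)⁻¹ := rfl
    have hne : restr γ (N s) (hst s) a - a ≠ 0 := by
      intro h0
      apply hx
      have := congrArg Subtype.val (sub_eq_zero.1 h0)
      exact this
    have hpos := fix_pos (hw s) (a := a) (by
      by_cases h7 : a = 0
      · exact ⟨0, Or.inl (by rw [h7, map_zero, sub_zero])⟩
      rcases lt_or_eq_of_le (((w s).reg_iff h7).1 h4) with h8 | h8
      · exact ⟨0, Or.inr (by rw [map_zero, sub_zero]; exact h8)⟩
      · obtain ⟨c, -, hc⟩ := residue_N (w s) h7 h8.symm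
        exact ⟨c, hc⟩) hne
    rw [hd, (w s).reg_iff (inv_ne_zero hne), (w s).ord_inv] at h6
    omega
  obtain ⟨W, hWO, -⟩ := h.loc V hVc hVtop
  refine ⟨W, (fixes_iff W γ).mpr (Place.ext_O ?_)⟩
  ext z
  rw [hWO]
  have h1 : z ∈ (pl W γ).O ↔ γ z ∈ W.O := by
    rw [Place.mem_O, Place.mem_O]
    by_cases hz0 : z = 0
    · rw [hz0, map_zero]
      exact ⟨fun _ => W.reg_zero, fun _ => (pl W γ).reg_zero⟩
    · rw [(pl W γ).reg_iff hz0, W.reg_iff ((_root_.map_ne_zero γ).mpr hz0)]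
      rfl
  have hreg : ∀ s (hz : z ∈ N s) (hγz : γ z ∈ N s),
      (w s).Reg ⟨γ z, hγz⟩ ↔ (w s).Reg ⟨z, hz⟩ := by
    intro s hz hγz
    have h2 : (⟨γ z, hγz⟩ : N s) = restr γ (N s) (hst s) ⟨z, hz⟩ := rfl
    rw [h2]
    by_cases hz0 : (⟨z, hz⟩ : N s) = 0
    · rw [hz0, map_zero]
    · rw [(w s).reg_iff ((_root_.map_ne_zero _).mpr hz0), (w s).reg_iff hz0, hw]
  rw [h1, hWO, hVmem, hVmem]
  constructor
  · intro h2
    filter_upwards [h2, hmem z] with s h2 hz
    obtain ⟨h3, h4⟩ := h2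
    exact ⟨hz, (hreg s hz h3).mp h4⟩
  · intro h2
    filter_upwards [h2, hmem (γ z)] with s h2 hz
    obtain ⟨h3, h4⟩ := h2
    exact ⟨hz, (hreg s h3 hz).mpr h4⟩

/-- automorphisms over the constants which fix `x` -/
theorem toR (hx : RatF κ x) (γ : M ≃ₐ[κ] M) (h : γ (algebraMap R M x) = algebraMap R M x) :
    ∃ g : M ≃ₐ[R] M, ∀ z, g z = γ z := by
  have hR : ∀ t : R, (γ : M ≃+* M) (algebraMap R M t) = algebraMap R M t := by
    intro t
    have ht : t ∈ IntermediateField.adjoin κ {x} := by rw [hx.gen]; trivial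
    induction ht using IntermediateField.adjoin_induction with
    | mem y hy =>
      rw [Set.mem_singleton_iff] at hy
      subst hy
      exact h
    | algebraMap c =>
      rw [← IsScalarTower.algebraMap_apply]
      exact γ.commutes c
    | add a b _ _ ha hb => rw [map_add, map_add, ha, hb]
    | inv a _ ha => rw [map_inv₀, map_inv₀, ha]
    | mul a b _ _ ha hb => rw [map_mul, map_mul, ha, hb]
  exact ⟨AlgEquiv.ofRingEquiv (f := (γ : M ≃+* M)) hR, fun z => rfl⟩

/-- **an automorphism of order `ℓ` fixes a place** -/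
theorem exf3 (h : Cov ℓ κ R M x B Y) (γ : M ≃ₐ[κ] M) (hγ : γ ^ ℓ = 1) (hγ1 : γ ≠ 1)
    (hs : StR R γ) : ∃ W : Place κ M, Fixes W γ := by
  by_cases hx : γ (algebraMap R M x) = algebraMap R M x
  · obtain ⟨g, hg⟩ := toR h.rat γ hx
    have hgn : ∀ (n : ℕ) (z : M), (g ^ n) z = (γ ^ n) z := by
      intro n
      induction n with
      | zero => intro z; rfl
      | succ n ih => intro z; rw [pow_succ, AlgEquiv.mul_apply, ih, pow_succ, AlgEquiv.mul_apply, hg]
    obtain ⟨W, hW⟩ := a_exf ℓ κ R M x B Y h g (by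
      ext z
      rw [hgn, hγ]; rfl) (by
      intro h1
      apply hγ1
      ext z
      rw [← hg, h1]; rfl)
    exact ⟨W, fun z => by rw [← hg]; exact hW z⟩
  · exact exf2 a_t1 a_res h γ hγ hs hx

end

end Pool.Agent.R925.X
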