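import Pool.Agent.Y157.PS.All

/-! Levels which are stable under an automorphism of finite order. -/

set_option autoImplicit false
set_option linter.all false

open Polynomial FF

namespace Pool.Agent.R925.X

open Pool.Agent.Y157.PS Pool.Agent.Y31.PS

section

variable {κ R M : Type} [Field κ] [Field R] [Field M] [Algebra κ R] [Algebra R M] [Algebra κ M]
  [IsScalarTower κ R M]

/-- `γ` maps `R` to itself -/
def StR (R : Type) {κ M : Type} [Field κ] [Field R] [Field M] [Algebra R M] [Algebra κ M]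
    (γ : M ≃ₐ[κ] M) : Prop :=
  ∀ r : R, ∃ r' : R, γ (algebraMap R M r) = algebraMap R M r'

omit [Algebra κ R] [IsScalarTower κ R M] in
theorem StR.pow {γ : M ≃ₐ[κ] M} (h : StR R γ) (n : ℕ) : StR R (γ ^ n) := by
  induction n with
  | zero => intro r; exact ⟨r, rfl⟩
  | succ n ih =>
    intro r
    obtain ⟨r1, h1⟩ := h r
    obtain ⟨r2, h2⟩ := ih r1
    refine ⟨r2, ?_⟩
    rw [pow_succ, AlgEquiv.mul_apply, h1, h2]

omit [Algebra κ R] [IsScalarTower κ R M] in
theorem StR.inv {γ : M ≃ₐ[κ] M} (h : StR R γ) {n : ℕ} (hn : 0 < n) (hγ : γ ^ n = 1) :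
    StR R γ⁻¹ := by
  have h1 : γ⁻¹ = γ ^ (n - 1) := by
    rw [inv_eq_iff_mul_eq_one, ← pow_succ', Nat.sub_add_cancel hn, hγ]
  rw [h1]
  exact h.pow _

omit [Algebra κ R] [IsScalarTower κ R M] in
/-- conjugates of elements of `Gal(M/R)` -/
theorem conj_R {γ : M ≃ₐ[κ] M} (h : StR R γ⁻¹) (δ : M ≃ₐ[R] M) :
    ∃ δ' : M ≃ₐ[R] M, ∀ z, δ' (γ z) = γ (δ z) := by
  let f : M ≃+* M := ((γ⁻¹ : M ≃ₐ[κ] M) : M ≃+* M).trans ((δ : M ≃+* M).trans (γ : M ≃+* M))
  have hf : ∀ z, f z = γ (δ (γ⁻¹ z)) := fun z => rfl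
  refine ⟨AlgEquiv.ofRingEquiv (f := f) fun r => ?_, fun z => ?_⟩
  · obtain ⟨r', hr'⟩ := h r
    rw [hf, hr', δ.commutes, ← hr']
    exact γ.apply_symm_apply _
  · show f (γ z) = _
    rw [hf]
    congr 2
    exact γ.symm_apply_apply z

variable {ℓ : ℕ} [hℓ : Fact ℓ.Prime]

/-- stable levels -/
theorem exists_slev [IsGalois R M]
    (hpow : ∀ z : M, ∃ N : IntermediateField R M, z ∈ N ∧ Lev ℓ N) (γ : M ≃ₐ[κ] M) (n : ℕ)
    (hn : 0 < n) (hγ : γ ^ n = 1) (hs : StR R γ) (s : Finset M) :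
    ∃ N : IntermediateField R M, Lev ℓ N ∧ (∀ z, γ z ∈ N ↔ z ∈ N) ∧ ∀ z ∈ s, z ∈ N := by
  classical
  let A : Set M := {z | ∃ (δ : M ≃ₐ[R] M) (i : ℕ), ∃ w ∈ s, z = δ ((γ ^ i) w)}
  let N : IntermediateField R M := IntermediateField.adjoin R A
  have hmod : ∀ (i : ℕ) (w : M), (γ ^ i) w = (γ ^ (i % n)) w := by
    intro i w
    conv_lhs => rw [← Nat.div_add_mod i n, pow_add, pow_mul, hγ, one_pow, one_mul]
  obtain ⟨N₁, hN₁, hs₁⟩ := exists_lev hpow
    ((Finset.range n ×ˢ s).image fun p : ℕ × M => (γ ^ p.1) p.2)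
  have i1 := hN₁.fin
  have i2 := hN₁.gal
  have hAN : A ⊆ N₁ := by
    rintro z ⟨δ, i, w, hw, rfl⟩
    have h1 : (γ ^ i) w ∈ N₁ := by
      rw [hmod]
      refine hs₁ _ (Finset.mem_image.2 ⟨(i % n, w), ?_, rfl⟩)
      exact Finset.mk_mem_product (Finset.mem_range.2 (Nat.mod_lt _ hn)) hw
    have h2 := AlgEquiv.restrictNormal_commutes δ N₁ ⟨_, h1⟩
    have h3 : δ ((γ ^ i) w) = ((δ.restrictNormal N₁ ⟨_, h1⟩ : N₁) : M) := h2.symm
    rw [h3]
    exact SetLike.coe_mem _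
  have hle : N ≤ N₁ := IntermediateField.adjoin_le_iff.2 hAN
  have hfin : FiniteDimensional R N :=
    Module.Finite.of_injective (IntermediateField.inclusion hle).toLinearMap
      (IntermediateField.inclusion hle).injective
  have hδ : ∀ (δ : M ≃ₐ[R] M), ∀ z ∈ N, δ z ∈ N := by
    intro δ z hz
    induction hz using IntermediateField.adjoin_induction with
    | mem y hy =>
      obtain ⟨δ', i, w, hw, rfl⟩ := hy
      exact IntermediateField.subset_adjoin R A ⟨δ * δ', i, w, hw, rfl⟩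
    | algebraMap c => rw [δ.commutes]; exact N.algebraMap_mem c
    | add a b _ _ ha hb => rw [map_add]; exact add_mem ha hb
    | inv a _ ha => rw [map_inv₀]; exact inv_mem ha
    | mul a b _ _ ha hb => rw [map_mul]; exact mul_mem ha hb
  have hnor : Normal R N := by
    rw [IntermediateField.normal_iff_forall_map_le']
    rintro σ
    rintro _ ⟨z, hz, rfl⟩
    exact hδ σ z hz
  have hgal : IsGalois R N := {}
  have hs' : StR R γ⁻¹ := hs.inv hn hγ
  have hγN : ∀ z ∈ N, γ z ∈ N := by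
    intro z hz
    induction hz using IntermediateField.adjoin_induction with
    | mem y hy =>
      obtain ⟨δ, i, w, hw, rfl⟩ := hy
      obtain ⟨δ', hδ'⟩ := conj_R hs' δ
      refine IntermediateField.subset_adjoin R A ⟨δ', i + 1, w, hw, ?_⟩
      rw [← hδ', pow_succ', AlgEquiv.mul_apply]
    | algebraMap c =>
      obtain ⟨r', hr'⟩ := hs c
      rw [hr']
      exact N.algebraMap_mem r'
    | add a b _ _ ha hb => rw [map_add]; exact add_mem ha hb
    | inv a _ ha => rw [map_inv₀]; exact inv_mem ha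
    | mul a b _ _ ha hb => rw [map_mul]; exact mul_mem ha hb
  have hγN' : ∀ (i : ℕ), ∀ z ∈ N, (γ ^ i) z ∈ N := by
    intro i
    induction i with
    | zero => intro z hz; exact hz
    | succ i ih =>
      intro z hz
      rw [pow_succ, AlgEquiv.mul_apply]
      exact ih _ (hγN z hz)
  refine ⟨N, ⟨hfin, hgal, ?_⟩, fun z => ⟨fun hz => ?_, hγN z⟩, fun z hz => ?_⟩
  · obtain ⟨m, hm⟩ := hN₁.card
    have h1 : Module.finrank R N ∣ Module.finrank R N₁ :=
      IntermediateField.finrank_dvd_of_le_right hle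
    rw [hm] at h1
    obtain ⟨a, -, ha⟩ := (Nat.dvd_prime_pow hℓ.out).1 h1
    exact ⟨a, ha⟩
  · have h1 := hγN' (n - 1) (γ z) hz
    have h2 : (γ ^ (n - 1)) (γ z) = z := by
      rw [← AlgEquiv.mul_apply, ← pow_succ, Nat.sub_add_cancel hn, hγ]
      rfl
    rwa [h2] at h1
  · exact IntermediateField.subset_adjoin R A ⟨1, 0, z, hz, rfl⟩

/-- the restriction of an automorphism to a stable subfield -/
def restr (γ : M ≃ₐ[κ] M) (N : IntermediateField R M) (h : ∀ z, γ z ∈ N ↔ z ∈ N) : N ≃ₐ[κ] N :=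
  AlgEquiv.ofRingEquiv (f :=
    { toFun := fun z => ⟨γ z, (h z).2 z.2⟩
      invFun := fun z => ⟨γ.symm z, (h _).1 (by rw [γ.apply_symm_apply]; exact z.2)⟩
      left_inv := fun z => Subtype.ext (γ.symm_apply_apply z)
      right_inv := fun z => Subtype.ext (γ.apply_symm_apply z)
      map_mul' := fun a b => Subtype.ext (map_mul γ (a : M) b)
      map_add' := fun a b => Subtype.ext (map_add γ (a : M) b) })
    (fun c => Subtype.ext (γ.commutes c))

theorem restr_coe (γ : M ≃ₐ[κ] M) (N : IntermediateField R M) (h : ∀ z, γ z ∈ N ↔ z ∈ N) (z : N) :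
    ((restr γ N h z : N) : M) = γ z := rfl

theorem restr_pow (γ : M ≃ₐ[κ] M) (N : IntermediateField R M) (h : ∀ z, γ z ∈ N ↔ z ∈ N) (n : ℕ)
    (z : N) : ((((restr γ N h) ^ n) z : N) : M) = (γ ^ n) z := by
  induction n generalizing z with
  | zero => rfl
  | succ n ih =>
    rw [pow_succ, AlgEquiv.mul_apply, ih, pow_succ, AlgEquiv.mul_apply]
    rfl

end

end Pool.Agent.R925.X
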