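import Pool.Agent.R925.X.Fix

/-! An automorphism of order `ℓ` of `M` over the constants which maps `R` to itself fixes only one
place. -/

set_option autoImplicit false
set_option linter.all false

open Polynomial FF

namespace Pool.Agent.R925.X

open Pool.Agent.Y157.PS Pool.Agent.Y31.PS

section

variable {ℓ : ℕ} [hℓ : Fact ℓ.Prime] {κ R M : Type} [Field κ] [Field R] [Field M] [Algebra κ R]
  [Algebra R M] [Algebra κ M] [IsScalarTower κ R M]

/-- a nontrivial element of `Gal(N'/N)` which commutes with an automorphism of order `ℓ` -/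
theorem exists_comm {γ : M ≃ₐ[κ] M} (hγ : γ ^ ℓ = 1) (hs : StR R γ) {N N' : IntermediateField R M}
    (hN' : Lev ℓ N') (hle : N ≤ N') (hne : ¬ N' ≤ N) (hst : ∀ z, γ z ∈ N ↔ z ∈ N)
    (hst' : ∀ z, γ z ∈ N' ↔ z ∈ N') :
    ∃ δ : N' ≃ₐ[R] N', δ ≠ 1 ∧ (∀ z : N', (z : M) ∈ N → δ z = z) ∧
      ∀ z, δ (restr γ N' hst' z) = restr γ N' hst' (δ z) := by
  classical
  have i1 := hN'.fin
  have i2 := hN'.gal
  set g := restr γ N' hst' with hg
  have hgpow : ∀ (n : ℕ) (z : N'), (((g ^ n) z : N') : M) = (γ ^ n) z := restr_pow γ N' hst'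
  have hgℓ : g ^ ℓ = 1 := by
    ext z
    rw [hgpow, hγ]
    rfl
  have hsg : StR R g := by
    intro r
    obtain ⟨r', hr'⟩ := hs r
    exact ⟨r', Subtype.ext hr'⟩
  have hconj : ∀ δ : N' ≃ₐ[R] N', ∃ δ' : N' ≃ₐ[R] N', ∀ z, δ' (g z) = g (δ z) := fun δ =>
    conj_R (hsg.inv hℓ.out.pos hgℓ) δ
  choose f hf using hconj
  let N₁ : IntermediateField R N' := IntermediateField.restrict hle
  have hN₁ : ∀ z : N', z ∈ N₁ ↔ (z : M) ∈ N := fun z => IntermediateField.mem_restrict hle z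
  let G := N₁.fixingSubgroup
  have hG : ∀ δ : N' ≃ₐ[R] N', δ ∈ G ↔ ∀ z : N', (z : M) ∈ N → δ z = z := by
    intro δ
    rw [IntermediateField.mem_fixingSubgroup_iff]
    exact ⟨fun h z hz => h z ((hN₁ z).2 hz), fun h z hz => h z ((hN₁ z).1 hz)⟩
  have hgN : ∀ z : N', ((g z : N') : M) ∈ N ↔ (z : M) ∈ N := fun z => hst z
  have hfG : ∀ δ ∈ G, f δ ∈ G := by
    intro δ hδ
    rw [hG] at hδ ⊢
    intro z hz
    obtain ⟨w, rfl⟩ := g.surjective z
    rw [hf, hδ w ((hgN w).1 hz)]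
  let f' : G → G := fun δ => ⟨f δ, hfG δ δ.2⟩
  have hinj : Function.Injective f' := by
    rintro ⟨δ, h1⟩ ⟨δ', h2⟩ h
    have h3 : f δ = f δ' := congrArg Subtype.val h
    apply Subtype.ext
    ext z
    congr 1
    apply g.injective
    rw [← hf, h3, hf]
  have hbij : Function.Bijective f' := Finite.injective_iff_bijective.1 hinj
  let σ : Equiv.Perm G := Equiv.ofBijective f' hbij
  have hσ : ∀ (δ : G) (z : N'), ((σ δ : G) : N' ≃ₐ[R] N') (g z) = g ((δ : N' ≃ₐ[R] N') z) :=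
    fun δ z => hf δ z
  have hσn : ∀ (n : ℕ) (δ : G) (z : N'), (((σ ^ n) δ : G) : N' ≃ₐ[R] N') ((g ^ n) z) =
      (g ^ n) ((δ : N' ≃ₐ[R] N') z) := by
    intro n
    induction n with
    | zero => intro δ z; rfl
    | succ n ih =>
      intro δ z
      rw [pow_succ', pow_succ', Equiv.Perm.mul_apply, AlgEquiv.mul_apply, AlgEquiv.mul_apply, hσ,
        ih]
  have hσℓ : σ ^ ℓ ^ 1 = 1 := by
    rw [pow_one]
    ext δ z
    have h1 := hσn ℓ δ z
    rw [hgℓ] at h1
    exact congrArg Subtype.val h1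
  have hcard : ℓ ∣ Fintype.card G := by
    rw [← Nat.card_eq_fintype_card, IsGalois.card_fixingSubgroup_eq_finrank]
    obtain ⟨m, hm⟩ := hN'.card
    have h1 := Module.finrank_mul_finrank R N₁ N'
    rw [hm] at h1
    obtain ⟨a, -, ha⟩ := (Nat.dvd_prime_pow hℓ.out).1 (Dvd.intro_left _ h1)
    rw [ha]
    refine dvd_pow_self _ ?_
    rintro rfl
    apply hne
    rw [pow_zero] at ha
    have h2 : N₁ = ⊤ := IntermediateField.finrank_eq_one_iff_eq_top.1 ha
    intro z hz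
    have h3 : (⟨z, hz⟩ : N') ∈ N₁ := by rw [h2]; trivial
    exact (hN₁ _).1 h3
  obtain ⟨b, hb1, hb2⟩ := Equiv.Perm.exists_fixed_point_of_prime' hcard hσℓ (a := 1) (by
    apply Subtype.ext
    ext z
    obtain ⟨w, rfl⟩ := g.surjective z
    have h1 := hσ 1 w
    exact congrArg Subtype.val h1)
  refine ⟨b, fun h => hb2 (Subtype.ext h), (hG _).1 b.2, fun z => ?_⟩
  have h1 := hσ b z
  rw [hb1] at h1
  exact h1

end

section

variable {ℓ : ℕ} [hℓ : Fact ℓ.Prime] {κ R M : Type} [Field κ] [IsAlgClosed κ] [CharZero κ]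
  [Field R] [Field M] [Algebra κ R] [Algebra R M] [Algebra κ M] [IsScalarTower κ R M] {x : R}
  {B : Finset κ} {Y : M}

/-- eigenvectors which are units at a fixed place are invariant -/
theorem eig_one (h : Cov ℓ κ R M x B Y) {γ : M ≃ₐ[κ] M} {W : Place κ M} (hW : Fixes W γ) {s : M}
    (hs0 : s ≠ 0) (hs : W.ord s = 0) {a : κ} (ha : γ s = algebraMap κ M a * s) : a = 1 := by
  obtain ⟨c, hc0, hc⟩ := residue_M a_res h W hs0 hs
  have hdiff : γ (s - algebraMap κ M c) - algebraMap κ M a * (s - algebraMap κ M c) =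
      algebraMap κ M ((a - 1) * c) := by
    rw [map_sub γ, γ.commutes, ha, map_mul, map_sub, map_one]
    ring
  by_contra hne
  have hac : (a - 1) * c ≠ 0 := mul_ne_zero (sub_ne_zero.mpr hne) hc0
  have hac' : algebraMap κ M ((a - 1) * c) ≠ 0 := by
    rw [_root_.map_ne_zero]
    exact hac
  rcases hc with hc | hc
  · rw [hc, map_zero, mul_zero, sub_zero] at hdiff
    exact hac' hdiff.symm
  · have hd0 : s - algebraMap κ M c ≠ 0 := by
      intro h0
      rw [h0, W.ord_zero] at hc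
      exact lt_irrefl _ hc
    have ha0' : a ≠ 0 := by
      rintro rfl
      rw [map_zero, zero_mul] at ha
      exact hs0 ((map_eq_zero_iff γ γ.injective).1 ha)
    have ha0 : algebraMap κ M a ≠ 0 := by
      rw [_root_.map_ne_zero]
      exact ha0'
    have h1 := W.ord_sub (f := γ (s - algebraMap κ M c))
      (g := algebraMap κ M a * (s - algebraMap κ M c)) ((_root_.map_ne_zero γ).mpr hd0)
      (mul_ne_zero ha0 hd0) (by rw [hdiff]; exact hac')
    rw [hdiff, W.ord_const hac, hW, W.ord_mul ha0 hd0, W.ord_const ha0', zero_add,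
      min_self] at h1
    omega

/-- automorphisms over the constants which fix a place and a uniformiser are trivial -/
theorem stab1 (h : Cov ℓ κ R M x B Y) {γ : M ≃ₐ[κ] M} {W : Place κ M} (hW : Fixes W γ) {π : M}
    (h1 : W.ord π = 1) (h2 : γ π = π) : γ = 1 := by
  have := h.gal
  exact a_stab κ M (algebraMap R M x) (alg_adjoin h.rat) W γ hW π h1 h2

/-- the norm of a uniformiser at a fixed place -/
theorem norm_unif {γ : M ≃ₐ[κ] M} (hγ : γ ^ ℓ = 1) {W : Place κ M} (hW : Fixes W γ) :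
    ∃ n : M, n ≠ 0 ∧ γ n = n ∧ W.ord n = ℓ := by
  obtain ⟨t, ht0, ht⟩ := W.surj
  refine ⟨∏ i ∈ Finset.range ℓ, (γ ^ i) t, ?_, prod_shift γ hγ t ht0, ?_⟩
  · exact Finset.prod_ne_zero_iff.mpr fun i _ => (_root_.map_ne_zero _).mpr ht0
  · have h1 : ∀ i : ℕ, W.ord ((γ ^ i) t) = 1 := by
      intro i
      rw [fixes_pow hW i, ht]
    have : ∀ n : ℕ, W.ord (∏ i ∈ Finset.range n, (γ ^ i) t) = n := by
      intro n
      induction n with
      | zero => simp [W.ord_one]
      | succ n ih =>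
        rw [Finset.prod_range_succ, W.ord_mul, ih, h1]
        · push_cast; ring
        · exact Finset.prod_ne_zero_iff.mpr fun i _ => (_root_.map_ne_zero _).mpr ht0
        · exact (_root_.map_ne_zero _).mpr ht0
    exact this ℓ

/-- a third fixed place of a level -/
theorem third (h : Cov ℓ κ R M x B Y) {γ : M ≃ₐ[κ] M} (hγ : γ ^ ℓ = 1) (hs : StR R γ)
    {N N' : IntermediateField R M} (hN' : Lev ℓ N') (hle : N ≤ N') (hne : ¬ N' ≤ N)
    (hst : ∀ z, γ z ∈ N ↔ z ∈ N) (hst' : ∀ z, γ z ∈ N' ↔ z ∈ N') (hY : Y ∈ N)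
    {w : Place κ N'} (hw : Fixes w (restr γ N' hst')) :
    ∃ w' : Place κ N', Fixes w' (restr γ N' hst') ∧ w' ≠ w ∧
      ∀ z : N', (z : M) ∈ N → w'.ord z = w.ord z := by
  have i0 := h.gal
  have i1 := hN'.fin
  have i2 := hN'.gal
  obtain ⟨δ, hδ1, hδN, hδc⟩ := exists_comm hγ hs hN' hle hne hst hst'
  refine ⟨pl w δ, fun z => ?_, fun heq => ?_, fun z hz => ?_⟩
  · rw [pl_ord, pl_ord, hδc, hw]
  · have hfix : Fixes w δ := (fixes_iff w δ).2 heq
    obtain ⟨W, hW⟩ := (a_res ℓ κ R M x B Y h N' hN'.fin (hle hY)).2.1 w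
    have hc : ∀ a : κ, W.ord (algebraMap R M x - algebraMap κ M a) =
        w.ord (algebraMap R N' x - algebraMap κ N' a) := by
      intro a
      rw [← hW]
      rfl
    have hxw : W.ord (algebraMap R M x) = w.ord (algebraMap R N' x) := by
      rw [← hW]
      rfl
    have hYw : W.ord Y = w.ord ⟨Y, hle hY⟩ := by
      rw [← hW]
    apply hδ1
    rcases h.loc' W with ⟨e, he, h1, h2⟩ | ⟨a, ha, h1⟩ | h1
    · rw [hYw] at h2
      exact stab_triv a_stab h.rat w δ hfix h2 (hδN _ hY)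
    · rw [hc] at h1
      exact stab_triv a_stab h.rat w δ hfix h1 (by rw [map_sub, δ.commutes, aut_const])
    · rw [hxw] at h1
      refine stab_triv a_stab h.rat w δ hfix (π := (algebraMap R N' x)⁻¹) ?_ ?_
      · rw [w.ord_inv, h1]; norm_num
      · rw [map_inv₀, δ.commutes]
  · rw [pl_ord, hδN z hz]

/-- **an automorphism of order `ℓ` fixes only one place** -/
theorem unq3 (h : Cov ℓ κ R M x B Y) (hinf : ¬ FiniteDimensional R M) {γ : M ≃ₐ[κ] M}
    (hγ : γ ^ ℓ = 1) (hγ1 : γ ≠ 1) (hs : StR R γ) {W W' : Place κ M} (hW : Fixes W γ)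
    (hW' : Fixes W' γ) : W = W' := by
  classical
  have i0 := h.gal
  by_contra hne
  obtain ⟨z1, hz1⟩ : ∃ z : M, W.ord z ≠ W'.ord z := by
    by_contra hcon
    push Not at hcon
    exact hne (Place.ext (funext hcon))
  obtain ⟨N₀, hN₀, hst₀, hmem₀⟩ := exists_slev h.pow γ ℓ hℓ.out.pos hγ hs {Y, z1}
  have hY₀ : Y ∈ N₀ := hmem₀ Y (by simp)
  -- a larger level
  obtain ⟨b, hb⟩ : ∃ b : M, b ∉ N₀ := by
    by_contra hcon
    push Not at hcon
    apply hinf
    have i1 := hN₀.fin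
    have h1 : N₀ = ⊤ := by
      ext z
      exact ⟨fun _ => trivial, fun _ => hcon z⟩
    have i3 : FiniteDimensional R (⊤ : IntermediateField R M) := h1 ▸ i1
    exact Module.Finite.equiv (IntermediateField.topEquiv (F := R) (E := M)).toLinearEquiv
  obtain ⟨N, hN, hst, hmem⟩ : ∃ N : IntermediateField R M, Lev ℓ N ∧ (∀ z, γ z ∈ N ↔ z ∈ N) ∧
      N₀ ≤ N ∧ ¬ N ≤ N₀ := by
    have i1 := hN₀.fin
    let bs := Module.finBasis R N₀
    let T : Finset M := Finset.univ.image fun i => ((bs i : N₀) : M)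
    obtain ⟨N, hN, hst, hmem⟩ := exists_slev h.pow γ ℓ hℓ.out.pos hγ hs (insert b T)
    refine ⟨N, hN, hst, fun z hz => ?_, fun hle => hb (hle (hmem b (Finset.mem_insert_self _ _)))⟩
    have h1 := bs.sum_repr ⟨z, hz⟩
    have h2 : z = ∑ i, algebraMap R M (bs.repr ⟨z, hz⟩ i) * ((bs i : N₀) : M) := by
      have h3 := congrArg (fun w : N₀ => (w : M)) h1
      simp only [IntermediateField.coe_sum, IntermediateField.coe_smul, Algebra.smul_def] at h3
      exact h3.symm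
    rw [h2]
    refine sum_mem fun i _ => mul_mem (N.algebraMap_mem _) ?_
    exact hmem _ (Finset.mem_insert_of_mem (Finset.mem_image_of_mem _ (Finset.mem_univ i)))
  obtain ⟨hle, hnle⟩ := hmem
  have hYN : Y ∈ N := hle hY₀
  have i1 := hN.fin
  have i2 := hN.gal
  have i3 : IsFF κ N := h.rat.isFF
  have hres := (a_res ℓ κ R M x B Y h N hN.fin hYN).1
  obtain ⟨w, hw⟩ := hres W
  obtain ⟨w', hw'⟩ := hres W'
  set g := restr γ N hst with hg
  have hfix : ∀ (U : Place κ M) (u : Place κ N), Fixes U γ → (∀ z : N, U.ord (z : M) = u.ord z) →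
      Fixes u g := by
    intro U u hU hu z
    rw [← hu, ← hu]
    exact hU z
  have hwg := hfix W w hW hw
  have hwg' := hfix W' w' hW' hw'
  obtain ⟨w₂, hw₂g, hw₂ne, hw₂⟩ := third h hγ hs hN hle hnle hst₀ hst hY₀ hwg
  have hz1N : z1 ∈ N₀ := hmem₀ z1 (by simp)
  have hww' : w ≠ w' := by
    rintro rfl
    apply hz1
    rw [hw ⟨z1, hle hz1N⟩, hw' ⟨z1, hle hz1N⟩]
  have hw₂w' : w₂ ≠ w' := by
    rintro rfl
    apply hz1
    rw [hw ⟨z1, hle hz1N⟩, hw' ⟨z1, hle hz1N⟩, hw₂ _ hz1N]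
  -- the divisor
  set D : Place κ N →₀ ℤ := Finsupp.single w 1 + Finsupp.single w₂ (-1) with hD
  have hDinv : ∀ v, D (pl v g) = D v := by
    have haux : ∀ (u : Place κ N) (c : ℤ), Fixes u g → ∀ v,
        (Finsupp.single u c) (pl v g) = (Finsupp.single u c) v := by
      intro u c hu v
      have hu' := (fixes_iff u g).1 hu
      rw [Finsupp.single_apply, Finsupp.single_apply]
      have : u = pl v g ↔ u = v := by
        constructor
        · intro h3
          rw [← hu'] at h3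
          exact (plE g).injective h3
        · rintro rfl
          exact hu'.symm
      simp only [this]
    intro v
    rw [hD, Finsupp.add_apply, Finsupp.add_apply, haux w 1 hwg, haux w₂ (-1) hw₂g]
  obtain ⟨z, hz0, hz⟩ := a_t1 ℓ κ R N x h.rat hN.card D (by
    rw [hD, Finsupp.sum_add_index' (fun _ => rfl) (fun _ _ _ => rfl),
      Finsupp.sum_single_index rfl, Finsupp.sum_single_index rfl]
    norm_num)
  have hzM0 : (z : M) ≠ 0 := by simpa using hz0
  have hgz : ((g z : N) : M) = γ (z : M) := rfl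
  have hγz0 : γ (z : M) ≠ 0 := (_root_.map_ne_zero γ).mpr hzM0
  obtain ⟨v, hv⟩ := h.root (γ (z : M) / z) (div_ne_zero hγz0 hzM0) (by
    intro U
    obtain ⟨u, hu⟩ := hres U
    rw [U.ord_div hγz0 hzM0, ← hgz, hu, hu]
    have h1 := hz u
    have h2 := hz (pl u g)
    rw [pl_ord, hDinv] at h2
    have h3 : u.ord (g z) - u.ord z = (u.ord (g z) - D u) - (u.ord z - D u) := by ring
    rw [h3]
    exact dvd_sub h2 h1)
  have hv0 : v ≠ 0 := by
    rintro rfl
    rw [zero_pow hℓ.out.ne_zero] at hv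
    exact div_ne_zero hγz0 hzM0 hv.symm
  set P : M := ∏ i ∈ Finset.range ℓ, (γ ^ i) v with hP
  have hPl : P ^ ℓ = algebraMap κ M 1 := by
    rw [hP, ← Finset.prod_pow]
    have h1 : ∀ i, ((γ ^ i) v) ^ ℓ = γ ((γ ^ i) (z : M)) / (γ ^ i) (z : M) := by
      intro i
      rw [← map_pow, hv, map_div₀]
      congr 1
      rw [← AlgEquiv.mul_apply, ← AlgEquiv.mul_apply, ← pow_succ, ← pow_succ']
    simp only [h1]
    rw [Finset.prod_div_distrib, ← map_prod, prod_shift γ hγ _ hzM0, map_one]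
    exact div_self (Finset.prod_ne_zero_iff.mpr fun i _ => (_root_.map_ne_zero _).mpr hzM0)
  obtain ⟨d, hd, hdl⟩ := root_const hℓ.out.pos hPl
  have hd0 : d ≠ 0 := by
    rintro rfl
    rw [zero_pow hℓ.out.ne_zero] at hdl
    exact zero_ne_one hdl
  obtain ⟨ξ, hξ⟩ := IsAlgClosed.exists_pow_nat_eq d⁻¹ hℓ.out.pos
  have hξ0 : ξ ≠ 0 := by
    rintro rfl
    rw [zero_pow hℓ.out.ne_zero] at hξ
    exact inv_ne_zero hd0 hξ.symm
  have hξM0 : algebraMap κ M ξ ≠ 0 := by rw [_root_.map_ne_zero]; exact hξ0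
  have hnorm : ∏ i ∈ Finset.range ℓ, (γ ^ i) (algebraMap κ M ξ * v) = 1 := by
    have h1 : ∀ i, (γ ^ i) (algebraMap κ M ξ * v) = algebraMap κ M ξ * (γ ^ i) v := by
      intro i
      rw [map_mul, (γ ^ i).commutes]
    simp only [h1]
    rw [Finset.prod_mul_distrib, Finset.prod_const, Finset.card_range, ← hP, hd, ← map_pow, hξ,
      ← map_mul, inv_mul_cancel₀ hd0, map_one]
  obtain ⟨t, ht0, ht⟩ := hilbert90 γ hγ hγ1 _ hnorm
  set T : M := (z : M) * t ^ ℓ with hT
  have hT0 : T ≠ 0 := mul_ne_zero hzM0 (pow_ne_zero _ ht0)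
  have hγT : γ T = algebraMap κ M d * T := by
    have h1 : γ t = t / (algebraMap κ M ξ * v) := by
      rw [eq_div_iff (mul_ne_zero hξM0 hv0), mul_comm]
      exact ht
    have h2 : γ (z : M) = z * v ^ ℓ := by
      rw [hv, mul_div_cancel₀ _ hzM0]
    have h3 : (algebraMap κ M ξ) ^ ℓ = (algebraMap κ M d)⁻¹ := by
      rw [← map_pow, hξ, map_inv₀]
    have hdM : algebraMap κ M d ≠ 0 := by rw [_root_.map_ne_zero]; exact hd0
    rw [hT, map_mul, map_pow, h1, h2, div_pow, mul_pow, h3]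
    field_simp
  have hordT : ∀ (U : Place κ M) (u : Place κ N), (∀ z : N, U.ord (z : M) = u.ord z) →
      ∃ q : ℤ, U.ord T = D u + ℓ * q := by
    intro U u hu
    obtain ⟨q, hq⟩ := hz u
    refine ⟨q + U.ord t, ?_⟩
    rw [hT, U.ord_mul hzM0 (pow_ne_zero _ ht0), U.ord_pow, hu]
    linarith
  have hDw : D w = 1 := by
    rw [hD, Finsupp.add_apply, Finsupp.single_eq_same, Finsupp.single_apply, if_neg hw₂ne, add_zero]
  have hDw' : D w' = 0 := by
    rw [hD, Finsupp.add_apply, Finsupp.single_apply, Finsupp.single_apply, if_neg hww',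
      if_neg hw₂w', add_zero]
  -- `T` is invariant
  have hd1 : d = 1 := by
    obtain ⟨q, hq⟩ := hordT W' w' hw'
    rw [hDw', zero_add] at hq
    obtain ⟨n, hn0, hnγ, hn⟩ := norm_unif hγ hW'
    have hs0 : T * n ^ (-q) ≠ 0 := mul_ne_zero hT0 (zpow_ne_zero _ hn0)
    refine eig_one h hW' hs0 ?_ (a := d) ?_
    · rw [W'.ord_mul hT0 (zpow_ne_zero _ hn0), W'.ord_zpow, hq, hn]
      ring
    · rw [map_mul, map_zpow₀, hnγ, hγT, mul_assoc]
  -- an invariant uniformiser at `W`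
  obtain ⟨q, hq⟩ := hordT W w hw
  rw [hDw] at hq
  obtain ⟨n, hn0, hnγ, hn⟩ := norm_unif hγ hW
  apply hγ1
  refine stab1 h hW (π := T * n ^ (-q)) ?_ ?_
  · rw [W.ord_mul hT0 (zpow_ne_zero _ hn0), W.ord_zpow, hq, hn]
    ring
  · rw [map_mul, map_zpow₀, hnγ, hγT, hd1, map_one, one_mul]

end

end Pool.Agent.R925.X
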